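import Mathlib

set_option autoImplicit false

namespace Pool.Agent.H129R3

/-- The monoid of pairs (word over J, integer); the integer part shifts the letters to its right. -/
@[ext]
structure WMon (J : Type) where
  w : List J
  d : ℤ

namespace WMon

variable {J : Type} [AddAction ℤ J]

instance : Mul (WMon J) := ⟨fun a b => ⟨a.w ++ b.w.map (fun x => a.d +ᵥ x), a.d + b.d⟩⟩

instance : One (WMon J) := ⟨⟨[], 0⟩⟩

omit [AddAction ℤ J] in
@[simp] lemma one_w : (1 : WMon J).w = [] := rfl
omit [AddAction ℤ J] in
@[simp] lemma one_d : (1 : WMon J).d = 0 := rfl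
@[simp] lemma mul_w (a b : WMon J) : (a * b).w = a.w ++ b.w.map (fun x => a.d +ᵥ x) := rfl
@[simp] lemma mul_d (a b : WMon J) : (a * b).d = a.d + b.d := rfl

instance : Monoid (WMon J) where
  mul_assoc a b c := by
    ext1
    · simp [List.map_append, List.map_map, Function.comp_def, add_vadd, List.append_assoc]
    · simp [add_assoc]
  one_mul a := by
    ext1
    · simp
    · simp
  mul_one a := by
    ext1
    · simp
    · simp

lemma mul_len (a b : WMon J) : (a * b).w.length = a.w.length + b.w.length := by simp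

/-- The action on infinite words. -/
def act (m : WMon J) (u : ℕ → J) : ℕ → J :=
  fun n => if h : n < m.w.length then m.w[n] else m.d +ᵥ u (n - m.w.length)

lemma act_lt (m : WMon J) (u : ℕ → J) (n : ℕ) (h : n < m.w.length) : m.act u n = m.w[n] := by
  simp [act, h]

lemma act_ge (m : WMon J) (u : ℕ → J) (n : ℕ) (h : m.w.length ≤ n) :
    m.act u n = m.d +ᵥ u (n - m.w.length) := by
  simp [act, Nat.not_lt.mpr h]

lemma act_one (u : ℕ → J) : act (1 : WMon J) u = u := by
  funext n; simp [act]

lemma act_mul (a b : WMon J) (u : ℕ → J) : (a * b).act u = a.act (b.act u) := by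
  funext n
  rcases Nat.lt_or_ge n a.w.length with h | h
  · rw [act_lt a _ n h, act_lt]
    · simp [List.getElem_append_left h]
    · rw [mul_len]; omega
  · rw [act_ge a _ n h]
    rcases Nat.lt_or_ge (n - a.w.length) b.w.length with h2 | h2
    · rw [act_lt b _ _ h2, act_lt]
      · simp [List.getElem_append_right h]
      · rw [mul_len]; omega
    · rw [act_ge b _ _ h2, act_ge _ _ n (by rw [mul_len]; omega)]
      simp only [mul_d, mul_len, add_vadd, Nat.sub_sub]

lemma act_inj (a : WMon J) {u v : ℕ → J} (h : a.act u = a.act v) : u = v := by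
  funext n
  have := congrFun h (n + a.w.length)
  rw [act_ge _ _ _ (by omega), act_ge _ _ _ (by omega)] at this
  simpa using this

/-- The fixed infinite word of a monomial with nonempty word part. -/
def fix (m : WMon J) (h : 0 < m.w.length) : ℕ → J :=
  fun n => (((n / m.w.length : ℕ) : ℤ) * m.d) +ᵥ m.w[n % m.w.length]'(Nat.mod_lt _ h)

lemma act_fix (m : WMon J) (h : 0 < m.w.length) : m.act (m.fix h) = m.fix h := by
  funext n
  rcases Nat.lt_or_ge n m.w.length with h1 | h1
  · rw [act_lt _ _ _ h1]
    simp [fix, Nat.div_eq_of_lt h1, Nat.mod_eq_of_lt h1]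
  · rw [act_ge _ _ _ h1]
    simp only [fix]
    rw [← add_vadd]
    have e1 : n / m.w.length = (n - m.w.length) / m.w.length + 1 := by
      conv_lhs => rw [← Nat.sub_add_cancel h1]
      rw [Nat.add_div_right _ h]
    have e2 : n % m.w.length = (n - m.w.length) % m.w.length := by
      conv_lhs => rw [← Nat.sub_add_cancel h1]
      rw [Nat.add_mod_right]
    have e3 : m.d + (((n - m.w.length) / m.w.length : ℕ) : ℤ) * m.d
        = ((n / m.w.length : ℕ) : ℤ) * m.d := by
      rw [e1]; push_cast; ring
    rw [e3]
    congr 1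
    simp only [e2]

/-- determination of a stabilizing monomial by length and degree -/
lemma eq_of_act_eq (a b : WMon J) (u : ℕ → J) (ha : a.act u = u) (hb : b.act u = u)
    (hl : a.w.length = b.w.length) (hd : a.d = b.d) : a = b := by
  ext1
  · apply List.ext_getElem hl
    intro n h1 h2
    rw [← act_lt a u n h1, ← act_lt b u n h2, ha, hb]
  · exact hd

section order

variable [LinearOrder J]

/-- lexicographic comparison -/
abbrev LT' (u v : ℕ → J) : Prop := ∃ i, (∀ j < i, u j = v j) ∧ u i < v i

lemma act_lt_act (hmono : ∀ (d : ℤ) (x y : J), x < y → d +ᵥ x < d +ᵥ y)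
    (a : WMon J) {u v : ℕ → J} (h : toLex u < toLex v) :
    toLex (a.act u) < toLex (a.act v) := by
  obtain ⟨i, hi, hlt⟩ := h
  refine ⟨i + a.w.length, ?_, ?_⟩
  · intro j hj
    show a.act u j = a.act v j
    rcases Nat.lt_or_ge j a.w.length with h1 | h1
    · rw [act_lt _ _ _ h1, act_lt _ _ _ h1]
    · rw [act_ge _ _ _ h1, act_ge _ _ _ h1]
      have := hi (j - a.w.length) (by omega)
      exact congrArg (fun x => a.d +ᵥ x) this
  · show a.act u (i + a.w.length) < a.act v (i + a.w.length)
    rw [act_ge _ _ _ (by omega), act_ge _ _ _ (by omega)]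
    apply hmono
    simpa using hlt

lemma act_le_act (hmono : ∀ (d : ℤ) (x y : J), x < y → d +ᵥ x < d +ᵥ y)
    (a : WMon J) {u v : ℕ → J} (h : toLex u ≤ toLex v) :
    toLex (a.act u) ≤ toLex (a.act v) := by
  rcases h.eq_or_lt with h | h
  · rw [toLex_inj.mp h]
  · exact (act_lt_act hmono a h).le

/-- if the fixed word of `m` is below `u` then `m` moves `u` down -/
lemma act_le_of_fix_le (m : WMon J) {u v : ℕ → J} (hm : 0 < m.w.length)
    (hv : m.act v = v) (h : toLex v ≤ toLex u) : toLex (m.act u) ≤ toLex u := by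
  rcases h.eq_or_lt with h | h
  · rw [← toLex_inj.mp h, hv]
  · obtain ⟨i, hi, hlt⟩ := h
    apply le_of_lt
    have key : ∀ j ≤ i, m.act u j = v j := by
      intro j hj
      rw [← congrFun hv j]
      rcases Nat.lt_or_ge j m.w.length with h1 | h1
      · rw [act_lt _ _ _ h1, act_lt _ _ _ h1]
      · rw [act_ge _ _ _ h1, act_ge _ _ _ h1]
        have := hi (j - m.w.length) (by omega)
        exact congrArg (fun x => m.d +ᵥ x) this.symm
    refine ⟨i, ?_, ?_⟩
    · intro j hj
      show m.act u j = u j
      rw [key j hj.le]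
      exact hi j hj
    · show m.act u i < u i
      rw [key i le_rfl]
      exact hlt

end order

end WMon

end Pool.Agent.H129R3
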