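import Mathlib
import Pool.Agent.H129R3.Mon

set_option autoImplicit false

namespace Pool.Agent.H129R3

open MonoidAlgebra PowerSeries

variable (k : Type) [Field k] {J : Type} [AddAction ℤ J]

/-- the letter `j` as an element of the monoid algebra -/
noncomputable def zeta (j : J) : MonoidAlgebra k (WMon J) := single ⟨[j], 0⟩ 1

/-- `1 + ζ_j X` -/
noncomputable def U (j : J) : (PowerSeries (MonoidAlgebra k (WMon J)))ˣ where
  val := 1 + PowerSeries.C (zeta k j) * PowerSeries.X
  inv := PowerSeries.mk (fun n => (- zeta k j) ^ n)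
  val_inv := by
    ext1 n
    rw [add_mul, one_mul, mul_assoc, map_add, PowerSeries.coeff_C_mul, PowerSeries.coeff_mk]
    cases n with
    | zero => simp
    | succ n =>
      rw [PowerSeries.coeff_succ_X_mul, PowerSeries.coeff_mk, PowerSeries.coeff_one, pow_succ']
      simp
  inv_val := by
    ext1 n
    rw [mul_add, mul_one, ← mul_assoc, map_add, PowerSeries.coeff_mk]
    cases n with
    | zero => simp
    | succ n =>
      rw [PowerSeries.coeff_succ_mul_X, PowerSeries.coeff_mul_C, PowerSeries.coeff_mk,
        PowerSeries.coeff_one, pow_succ]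
      simp

/-- the Magnus map of the free group on `J` -/
noncomputable def magHom : FreeGroup J →* PowerSeries (MonoidAlgebra k (WMon J)) :=
  (Units.coeHom _).comp (FreeGroup.lift (U k))

/-- the Magnus map of the group algebra -/
noncomputable def mag : MonoidAlgebra k (FreeGroup J) →ₐ[k] PowerSeries (MonoidAlgebra k (WMon J)) :=
  MonoidAlgebra.lift k _ _ (magHom k)

lemma mag_single (g : FreeGroup J) (a : k) : mag k (single g a) = a • magHom k g := by
  rw [mag, MonoidAlgebra.lift_single]

lemma mag_of (j : J) : mag k (single (FreeGroup.of j) 1) = 1 + PowerSeries.C (zeta k j) * PowerSeries.X := by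
  rw [mag_single, one_smul, magHom]
  simp [U]

lemma magHom_zero (g : FreeGroup J) : PowerSeries.constantCoeff (magHom k g) = 1 := by
  let f : FreeGroup J →* MonoidAlgebra k (WMon J) :=
    (PowerSeries.constantCoeff (R := MonoidAlgebra k (WMon J))).toMonoidHom.comp (magHom k)
  have hf : f = 1 := by
    ext j
    simp [f, magHom, U]
  exact DFunLike.congr_fun hf g

/-- right multiplication by distinct letters is independent -/
lemma zeta_indep (s : Finset J) (b : J → MonoidAlgebra k (WMon J))
    (h : ∑ j ∈ s, b j * zeta k j = 0) : ∀ j ∈ s, b j = 0 := by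
  classical
  intro j hj
  ext m
  have key : ∀ i ∈ s, (b i * zeta k i).coeff (m * ⟨[j], 0⟩) = if i = j then (b i).coeff m else 0 := by
    intro i _
    by_cases hij : i = j
    · subst hij
      rw [if_pos rfl, zeta, MonoidAlgebra.coeff_mul_single_eq_coeff_mul m, mul_one]
      intro m' _
      constructor
      · intro h
        have h1 := congrArg WMon.w h
        have h2 := congrArg WMon.d h
        simp at h1 h2
        exact WMon.ext h1.1 h2
      · rintro rfl; rfl
    · rw [if_neg hij, zeta, MonoidAlgebra.coeff_mul_single_of_forall_mul_ne]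
      intro m' h
      have h1 := congrArg WMon.w h
      have h2 := congrArg WMon.d h
      simp at h1 h2
      obtain ⟨h3, h4⟩ := h1
      rw [h2] at h4
      exact hij ((vadd_left_cancel_iff _).mp h4)
  have h0 := congrArg (fun x => x.coeff (m * ⟨[j], 0⟩)) h
  simp only [MonoidAlgebra.coeff_sum, Finsupp.finsetSum_apply] at h0
  rw [Finset.sum_congr rfl key] at h0
  simpa [hj] using h0

lemma series_indep (s : Finset J) (a : k) (b : J → PowerSeries (MonoidAlgebra k (WMon J)))
    (h : algebraMap k _ a + ∑ j ∈ s, b j * (PowerSeries.C (zeta k j) * PowerSeries.X) = 0) :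
    a = 0 ∧ ∀ j ∈ s, b j = 0 := by
  constructor
  · have h0 := congrArg PowerSeries.constantCoeff h
    simp only [map_add, map_sum, map_mul, PowerSeries.constantCoeff_X, mul_zero,
      Finset.sum_const_zero, add_zero, map_zero] at h0
    rw [PowerSeries.algebraMap_apply, PowerSeries.constantCoeff_C] at h0
    have : (algebraMap k (MonoidAlgebra k (WMon J))) a = algebraMap k _ 0 := by rw [h0, map_zero]
    have h1 := congrArg (fun x => x.coeff 1) this
    simpa using h1
  · intro j hj
    ext1 n
    have h0 := congrArg (PowerSeries.coeff (n+1)) h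
    rw [map_add, map_sum, PowerSeries.algebraMap_apply, PowerSeries.coeff_C_of_ne_zero (by omega),
      zero_add] at h0
    have : ∀ i ∈ s, PowerSeries.coeff (n+1) (b i * (PowerSeries.C (zeta k i) * PowerSeries.X))
        = PowerSeries.coeff n (b i) * zeta k i := by
      intro i _
      rw [← mul_assoc, PowerSeries.coeff_succ_mul_X, PowerSeries.coeff_mul_C]
    rw [Finset.sum_congr rfl this, map_zero] at h0
    rw [map_zero]
    exact zeta_indep k s (fun i => PowerSeries.coeff n (b i)) h0 j hj

/-- word length -/
noncomputable def nrm (g : FreeGroup J) : ℕ := letI := Classical.decEq J; g.norm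

/-- prefix-closed finite sets of the free group -/
def PP (C : Finset (FreeGroup J)) : Prop :=
  ∀ g ∈ C, g ≠ 1 → ∃ g' ∈ C, ∃ y : J, nrm g' < nrm g ∧
    (g = g' * FreeGroup.of y ∨ g' = g * FreeGroup.of y)

omit [AddAction ℤ J] in
lemma exists_parent (g : FreeGroup J) (hg : g ≠ 1) : ∃ g' : FreeGroup J, ∃ y : J,
    nrm g' < nrm g ∧
    (g = g' * FreeGroup.of y ∨ g' = g * FreeGroup.of y) := by
  let _ := Classical.decEq J
  have hne : g.toWord ≠ [] := by
    intro h
    exact hg (FreeGroup.toWord_eq_nil_iff.mp h)
  obtain ⟨L, ⟨y, b⟩, hL⟩ : ∃ L x, g.toWord = L ++ [x] := by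
    refine ⟨g.toWord.dropLast, g.toWord.getLast hne, ?_⟩
    exact (List.dropLast_append_getLast hne).symm
  have hgm : g = FreeGroup.mk L * FreeGroup.mk [(y, b)] := by
    rw [FreeGroup.mul_mk, ← hL, FreeGroup.mk_toWord]
  refine ⟨FreeGroup.mk L, y, ?_, ?_⟩
  · have h1 : (FreeGroup.mk L).norm ≤ L.length := FreeGroup.norm_mk_le
    have h2 : g.norm = L.length + 1 := by
      rw [FreeGroup.norm, hL]; simp
    show (FreeGroup.mk L).norm < g.norm
    omega
  · cases b with
    | true => left; exact hgm
    | false =>
      right
      rw [hgm, mul_assoc]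
      have : FreeGroup.mk [(y, false)] = (FreeGroup.of y)⁻¹ := rfl
      rw [this]; simp

omit [AddAction ℤ J] in
lemma exists_PP_mem (g : FreeGroup J) : ∃ C : Finset (FreeGroup J), PP C ∧ g ∈ C := by
  classical
  induction hn : nrm g using Nat.strong_induction_on generalizing g with
  | _ n ih =>
    by_cases hg : g = 1
    · exact ⟨{1}, fun h hh hne => absurd (Finset.mem_singleton.mp hh) hne, by simp [hg]⟩
    · obtain ⟨g', y, h1, h2⟩ := exists_parent g hg
      obtain ⟨C, hC, hgC⟩ := ih (nrm g') (hn ▸ h1) g' rfl
      refine ⟨insert g C, ?_, Finset.mem_insert_self _ _⟩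
      intro h hh hne
      rcases Finset.mem_insert.mp hh with rfl | hh
      · exact ⟨g', Finset.mem_insert_of_mem hgC, y, h1, h2⟩
      · obtain ⟨h', hh', z, h3, h4⟩ := hC h hh hne
        exact ⟨h', Finset.mem_insert_of_mem hh', z, h3, h4⟩

omit [AddAction ℤ J] in
lemma exists_PP (S : Finset (FreeGroup J)) : ∃ C : Finset (FreeGroup J), PP C ∧ S ⊆ C := by
  classical
  choose C hC hgC using exists_PP_mem (J := J)
  refine ⟨S.biUnion C, ?_, ?_⟩
  · intro h hh hne
    obtain ⟨g, hg, hgh⟩ := Finset.mem_biUnion.mp hh
    obtain ⟨h', hh', z, h3, h4⟩ := hC g h hgh hne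
    exact ⟨h', Finset.mem_biUnion.mpr ⟨g, hg, hh'⟩, z, h3, h4⟩
  · intro g hg
    exact Finset.mem_biUnion.mpr ⟨g, hg, hgC g⟩

omit [AddAction ℤ J] in
/-- removing a vertex of maximal length keeps the set prefix-closed -/
lemma PP.erase [DecidableEq (FreeGroup J)] {C : Finset (FreeGroup J)} (hC : PP C) {g : FreeGroup J}
    (hmax : ∀ h ∈ C, nrm h ≤ nrm g) : PP (C.erase g) := by
  intro h hh hne
  obtain ⟨h', hh', z, h3, h4⟩ := hC h (Finset.mem_of_mem_erase hh) hne
  refine ⟨h', Finset.mem_erase.mpr ⟨?_, hh'⟩, z, h3, h4⟩
  rintro rfl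
  exact absurd (hmax h (Finset.mem_of_mem_erase hh)) (by omega)

/-- the sum of `ρ y * (y - 1)` -/
noncomputable def bd (ρ : J →₀ MonoidAlgebra k (FreeGroup J)) : MonoidAlgebra k (FreeGroup J) :=
  ρ.sum (fun y c => c * (single (FreeGroup.of y) 1 - 1))

omit [AddAction ℤ J] in
lemma bd_add (ρ ρ' : J →₀ MonoidAlgebra k (FreeGroup J)) : bd k (ρ + ρ') = bd k ρ + bd k ρ' := by
  classical
  unfold bd
  rw [Finsupp.sum_add_index']
  · intro; simp
  · intro _ _ _; rw [add_mul]

omit [AddAction ℤ J] in
lemma bd_single (y : J) (c : MonoidAlgebra k (FreeGroup J)) :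
    bd k (Finsupp.single y c) = c * (single (FreeGroup.of y) 1 - 1) := by
  unfold bd
  rw [Finsupp.sum_single_index]
  simp

omit [AddAction ℤ J] in
lemma nrm_one : nrm (1 : FreeGroup J) = 0 := by
  let _ := Classical.decEq J
  exact FreeGroup.norm_one

omit [AddAction ℤ J] in
/-- the case of a trivial maximal vertex -/
lemma eq_algebraMap_of_max_one {C : Finset (FreeGroup J)} (hC : PP C)
    (hmax : ∀ h ∈ C, nrm h ≤ nrm (1 : FreeGroup J))
    (r : MonoidAlgebra k (FreeGroup J)) (hr : r.coeff.support ⊆ C) :
    r = algebraMap k _ (r.coeff 1) := by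
  classical
  have hsub : r.coeff.support ⊆ {1} := by
    intro h hh
    by_contra hne
    rw [Finset.mem_singleton] at hne
    obtain ⟨h', hh', z, h3, h4⟩ := hC h (hr hh) hne
    have := hmax h (hr hh)
    rw [nrm_one] at this
    omega
  ext h
  by_cases hh : h = 1
  · subst hh; simp
  · have : r.coeff h = 0 := by
      by_contra hne
      exact hh (Finset.mem_singleton.mp (hsub (Finsupp.mem_support_iff.mpr hne)))
    rw [this]
    simp [Ne.symm hh]

/-- support condition -/
def Sup (C : Finset (FreeGroup J)) (ρ : J →₀ MonoidAlgebra k (FreeGroup J)) : Prop :=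
  ∀ y, ∀ h ∈ (ρ y).coeff.support, h ∈ C ∧ h * FreeGroup.of y ∈ C

omit [AddAction ℤ J] in
/-- the leaf removal -/
lemma leaf [DecidableEq (FreeGroup J)] {C : Finset (FreeGroup J)} {g g' : FreeGroup J}
    (hg' : g' ∈ C.erase g)
    (r : MonoidAlgebra k (FreeGroup J)) (hr : r.coeff.support ⊆ C) :
    ∃ r'' : MonoidAlgebra k (FreeGroup J), r''.coeff.support ⊆ C.erase g ∧
      r = r'' + (single g (r.coeff g) - single g' (r.coeff g)) := by
  refine ⟨single g' (r.coeff g) + r.erase g, ?_, ?_⟩
  · intro h hh
    rw [MonoidAlgebra.coeff_add] at hh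
    rcases Finset.mem_union.mp (Finsupp.support_add hh) with h1 | h1
    · rw [MonoidAlgebra.coeff_single] at h1
      have := Finsupp.support_single_subset h1
      rw [Finset.mem_singleton] at this
      rw [this]; exact hg'
    · rw [MonoidAlgebra.coeff_erase, Finsupp.support_erase] at h1
      exact Finset.mem_erase.mpr ⟨(Finset.mem_erase.mp h1).1, hr (Finset.mem_erase.mp h1).2⟩
  · have := MonoidAlgebra.single_add_erase g r
    have e : single g' (r.coeff g) + erase g r + (single g (r.coeff g) - single g' (r.coeff g))
       = single g (r.coeff g) + erase g r := by abel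
    rw [e, this]

omit [AddAction ℤ J] in
lemma step_a (g g' : FreeGroup J) (y : J) (b : k) (h : g = g' * FreeGroup.of y) :
    (single g b - single g' b : MonoidAlgebra k (FreeGroup J))
      = bd k (Finsupp.single y (single g' b)) := by
  rw [bd_single, mul_sub, mul_one, MonoidAlgebra.single_mul_single, ← h, mul_one]

omit [AddAction ℤ J] in
lemma step_b (g g' : FreeGroup J) (y : J) (b : k) (h : g' = g * FreeGroup.of y) :
    (single g b - single g' b : MonoidAlgebra k (FreeGroup J))
      = bd k (Finsupp.single y (- single g b)) := by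
  rw [bd_single, mul_sub, mul_one, neg_mul, MonoidAlgebra.single_mul_single, ← h, mul_one]
  abel

omit [AddAction ℤ J] in
lemma decomp (n : ℕ) : ∀ (C : Finset (FreeGroup J)), C.card = n → PP C →
    ∀ r : MonoidAlgebra k (FreeGroup J), r.coeff.support ⊆ C →
    ∃ (a : k) (ρ : J →₀ MonoidAlgebra k (FreeGroup J)), Sup k C ρ ∧
      r = algebraMap k _ a + bd k ρ := by
  classical
  induction n with
  | zero =>
    intro C hn hC r hr
    have hC0 : C = ∅ := Finset.card_eq_zero.mp hn
    subst hC0
    have : r = 0 := by
      rw [← MonoidAlgebra.coeff_eq_zero, ← Finsupp.support_eq_empty]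
      exact Finset.subset_empty.mp hr
    exact ⟨0, 0, by intro y h hh; simp at hh, by simp [this, bd]⟩
  | succ n ih =>
    intro C hn hC r hr
    have hCne : C.Nonempty := by rw [← Finset.card_pos]; omega
    obtain ⟨g, hg, hmax⟩ := Finset.exists_max_image C nrm hCne
    have hC' := hC.erase hmax
    have hn' : (C.erase g).card = n := by rw [Finset.card_erase_of_mem hg]; omega
    by_cases hg1 : g = 1
    · subst hg1
      refine ⟨r.coeff 1, 0, by intro y h hh; simp at hh, ?_⟩
      have := eq_algebraMap_of_max_one k hC hmax r hr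
      rw [← this]; simp [bd]
    · obtain ⟨g', hg', y, hlt, hcase⟩ := hC g hg hg1
      have hg'ne : g' ≠ g := by rintro rfl; omega
      have hg'C : g' ∈ C.erase g := Finset.mem_erase.mpr ⟨hg'ne, hg'⟩
      obtain ⟨r'', hr''1, hr''2⟩ := leaf k hg'C r hr
      obtain ⟨a, ρ, hρ1, hρ2⟩ := ih (C.erase g) hn' hC' r'' hr''1
      have hρ1' : Sup k C ρ := fun y h hh =>
        ⟨Finset.mem_of_mem_erase (hρ1 y h hh).1, Finset.mem_of_mem_erase (hρ1 y h hh).2⟩
      set b := r.coeff g with hb
      rcases hcase with hc | hc
      · refine ⟨a, ρ + Finsupp.single y (single g' b), ?_, ?_⟩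
        · intro z h hh
          rw [Finsupp.add_apply, MonoidAlgebra.coeff_add] at hh
          rcases Finset.mem_union.mp (Finsupp.support_add hh) with h1 | h1
          · exact hρ1' z h h1
          · by_cases hz : y = z
            · subst hz
              rw [Finsupp.single_eq_same, MonoidAlgebra.coeff_single] at h1
              have := Finset.mem_singleton.mp (Finsupp.support_single_subset h1)
              rw [this]
              exact ⟨hg', hc ▸ hg⟩
            · rw [Finsupp.single_eq_of_ne (Ne.symm hz)] at h1
              simp at h1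
        · rw [bd_add, ← add_assoc, ← hρ2, ← step_a k g g' y b hc]
          exact hr''2
      · refine ⟨a, ρ + Finsupp.single y (- single g b), ?_, ?_⟩
        · intro z h hh
          rw [Finsupp.add_apply, MonoidAlgebra.coeff_add] at hh
          rcases Finset.mem_union.mp (Finsupp.support_add hh) with h1 | h1
          · exact hρ1' z h h1
          · by_cases hz : y = z
            · subst hz
              rw [Finsupp.single_eq_same, MonoidAlgebra.coeff_neg, Finsupp.support_neg,
                MonoidAlgebra.coeff_single] at h1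
              have := Finset.mem_singleton.mp (Finsupp.support_single_subset h1)
              rw [this]
              exact ⟨hg, hc ▸ hg'⟩
            · rw [Finsupp.single_eq_of_ne (Ne.symm hz)] at h1
              simp at h1
        · rw [bd_add, ← add_assoc, ← hρ2, ← step_b k g g' y b hc]
          exact hr''2

lemma mag_bd (a : k) (ρ : J →₀ MonoidAlgebra k (FreeGroup J))
    (h : mag k (algebraMap k _ a + bd k ρ) = 0) : a = 0 ∧ ∀ y, mag k (ρ y) = 0 := by
  classical
  have h1 : mag k (algebraMap k _ a + bd k ρ) = algebraMap k _ a +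
      ∑ y ∈ ρ.support, mag k (ρ y) * (PowerSeries.C (zeta k y) * PowerSeries.X) := by
    rw [map_add, AlgHom.commutes, bd, Finsupp.sum, map_sum]
    congr 1
    apply Finset.sum_congr rfl
    intro y _
    rw [map_mul, map_sub, map_one, mag_of, add_sub_cancel_left]
  rw [h1] at h
  obtain ⟨h2, h3⟩ := series_indep k ρ.support a (fun y => mag k (ρ y)) h
  refine ⟨h2, fun y => ?_⟩
  by_cases hy : y ∈ ρ.support
  · exact h3 y hy
  · rw [Finsupp.notMem_support_iff.mp hy, map_zero]

lemma mag_inj_aux (n : ℕ) : ∀ (C : Finset (FreeGroup J)), C.card = n → PP C →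
    ∀ r : MonoidAlgebra k (FreeGroup J), r.coeff.support ⊆ C → mag k r = 0 → r = 0 := by
  classical
  induction n with
  | zero =>
    intro C hn hC r hr _
    have hC0 : C = ∅ := Finset.card_eq_zero.mp hn
    subst hC0
    rw [← MonoidAlgebra.coeff_eq_zero, ← Finsupp.support_eq_empty]
    exact Finset.subset_empty.mp hr
  | succ n ih =>
    intro C hn hC r hr hM
    have hCne : C.Nonempty := by rw [← Finset.card_pos]; omega
    obtain ⟨g, hg, hmax⟩ := Finset.exists_max_image C nrm hCne
    have hC' := hC.erase hmax
    have hn' : (C.erase g).card = n := by rw [Finset.card_erase_of_mem hg]; omega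
    by_cases hg1 : g = 1
    · subst hg1
      have h1 := eq_algebraMap_of_max_one k hC hmax r hr
      have h0 : mag k (algebraMap k (MonoidAlgebra k (FreeGroup J)) (r.coeff 1) +
          bd k (0 : J →₀ MonoidAlgebra k (FreeGroup J))) = 0 := by
        have : bd k (0 : J →₀ MonoidAlgebra k (FreeGroup J)) = 0 := Finsupp.sum_zero_index
        rw [this, add_zero, ← h1]
        exact hM
      have h2 := (mag_bd k (r.coeff 1) 0 h0).1
      rw [h1, h2, map_zero]
    · obtain ⟨g', hg', y, hlt, hcase⟩ := hC g hg hg1
      have hg'ne : g' ≠ g := by rintro rfl; omega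
      have hg'C : g' ∈ C.erase g := Finset.mem_erase.mpr ⟨hg'ne, hg'⟩
      obtain ⟨r'', hr''1, hr''2⟩ := leaf k hg'C r hr
      obtain ⟨a, ρ, hρ1, hρ2⟩ := decomp k n (C.erase g) hn' hC' r'' hr''1
      set b := r.coeff g with hb
      -- it suffices to show b = 0
      suffices hb0 : b = 0 by
        rw [hb0] at hr''2
        simp only [single_zero, sub_self, add_zero] at hr''2
        rw [hr''2] at hM ⊢
        exact ih (C.erase g) hn' hC' r'' hr''1 hM
      rcases hcase with hc | hc
      · rw [step_a k g g' y b hc, hρ2, add_assoc, ← bd_add] at hr''2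
        rw [hr''2] at hM
        have h2 := (mag_bd k a _ hM).2 y
        have h3 : ((ρ + Finsupp.single y (single g' b)) y).coeff.support ⊆ C.erase g := by
          intro h hh
          rw [Finsupp.add_apply, MonoidAlgebra.coeff_add] at hh
          rcases Finset.mem_union.mp (Finsupp.support_add hh) with h1 | h1
          · exact (hρ1 y h h1).1
          · rw [Finsupp.single_eq_same, MonoidAlgebra.coeff_single] at h1
            have := Finset.mem_singleton.mp (Finsupp.support_single_subset h1)
            rw [this]; exact hg'C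
        have h4 := ih (C.erase g) hn' hC' _ h3 h2
        have h5 := congrArg (fun x => x.coeff g') h4
        simp only [Finsupp.add_apply, MonoidAlgebra.coeff_add, Finsupp.single_eq_same,
          MonoidAlgebra.coeff_single, MonoidAlgebra.coeff_zero, Finsupp.coe_zero,
          Pi.zero_apply] at h5
        have h6 : (ρ y).coeff g' = 0 := by
          by_contra hne
          have := (hρ1 y g' (Finsupp.mem_support_iff.mpr hne)).2
          rw [← hc] at this
          exact absurd this (Finset.notMem_erase g C)
        rw [h6, zero_add] at h5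
        exact h5
      · rw [step_b k g g' y b hc, hρ2, add_assoc, ← bd_add] at hr''2
        rw [hr''2] at hM
        have h2 := (mag_bd k a _ hM).2 y
        have h2' : mag k ((ρ + Finsupp.single y (- single g b)) y * single (FreeGroup.of y) 1) = 0 := by
          rw [map_mul, h2, zero_mul]
        have h3 : ((ρ + Finsupp.single y (- single g b)) y * single (FreeGroup.of y) 1).coeff.support
            ⊆ C.erase g := by
          intro h hh
          rw [Finsupp.add_apply, add_mul, MonoidAlgebra.coeff_add] at hh
          rcases Finset.mem_union.mp (Finsupp.support_add hh) with h1 | h1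
          · have := MonoidAlgebra.support_coeff_mul_single_subset _ _ _ h1
            obtain ⟨h0, hh0, rfl⟩ := Finset.mem_image.mp this
            exact (hρ1 y h0 hh0).2
          · rw [Finsupp.single_eq_same, neg_mul, MonoidAlgebra.single_mul_single,
              MonoidAlgebra.coeff_neg, Finsupp.support_neg,
              MonoidAlgebra.coeff_single] at h1
            have := Finset.mem_singleton.mp (Finsupp.support_single_subset h1)
            rw [this, ← hc]; exact hg'C
        have h4 := ih (C.erase g) hn' hC' _ h3 h2'
        have h5 := congrArg (fun x => x.coeff g') h4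
        have h7 : ∀ x : MonoidAlgebra k (FreeGroup J),
            (x * single (FreeGroup.of y) 1).coeff g' = x.coeff g := by
          intro x
          rw [MonoidAlgebra.coeff_mul_single_eq_coeff_mul g, mul_one]
          intro m _
          rw [hc]
          exact mul_left_inj _
        simp only [h7] at h5
        simp only [Finsupp.add_apply, MonoidAlgebra.coeff_add, Finsupp.single_eq_same,
          MonoidAlgebra.coeff_single, MonoidAlgebra.coeff_zero, Finsupp.coe_zero,
          Pi.zero_apply, MonoidAlgebra.coeff_neg, Finsupp.neg_apply] at h5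
        have h6 : (ρ y).coeff g = 0 := by
          by_contra hne
          have := (hρ1 y g (Finsupp.mem_support_iff.mpr hne)).1
          exact absurd this (Finset.notMem_erase g C)
        rw [h6, zero_add] at h5
        exact neg_eq_zero.mp h5

/-- the Magnus map is injective on the group algebra, in every characteristic -/
theorem mag_injective : Function.Injective (mag k (J := J)) := by
  rw [injective_iff_map_eq_zero]
  intro r hr
  obtain ⟨C, hC, hrC⟩ := exists_PP r.coeff.support
  exact mag_inj_aux k C.card C rfl hC r hrC hr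

end Pool.Agent.H129R3
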