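import Mathlib
import Pool.Agent.H129R3.Magnus

set_option autoImplicit false

namespace Pool.Agent.H129R3

open MonoidAlgebra PowerSeries

/-- letters indexed by an integer and an index -/
@[ext]
structure Ltr (I : Type) where
  z : ℤ
  i : I

namespace Ltr

variable {I : Type}

instance : AddAction ℤ (Ltr I) where
  vadd d x := ⟨d + x.z, x.i⟩
  zero_vadd x := by
    show (⟨0 + x.z, x.i⟩ : Ltr I) = x
    rw [zero_add]
  add_vadd a b x := by
    show (⟨a + b + x.z, x.i⟩ : Ltr I) = ⟨a + (b + x.z), x.i⟩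
    rw [add_assoc]

@[simp] lemma vadd_z (d : ℤ) (x : Ltr I) : (d +ᵥ x).z = d + x.z := rfl
@[simp] lemma vadd_i (d : ℤ) (x : Ltr I) : (d +ᵥ x).i = x.i := rfl

noncomputable instance [LinearOrder I] : LinearOrder (Ltr I) :=
  LinearOrder.lift' (fun x : Ltr I => toLex (x.z, x.i)) (by
    intro x y h
    have h1 := toLex_inj.mp h
    rw [Prod.mk.injEq] at h1
    exact Ltr.ext h1.1 h1.2)

lemma vadd_lt [LinearOrder I] (d : ℤ) (x y : Ltr I) (h : x < y) : d +ᵥ x < d +ᵥ y := by
  have h1 : toLex (x.z, x.i) < toLex (y.z, y.i) := h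
  show toLex (d + x.z, x.i) < toLex (d + y.z, y.i)
  rw [Prod.Lex.toLex_lt_toLex] at h1 ⊢
  simpa using h1

end Ltr

variable (k : Type) [Field k] {I : Type}

/-- the shift monomial -/
noncomputable def tt (z : ℤ) : MonoidAlgebra k (WMon (Ltr I)) := single ⟨[], z⟩ 1

/-- the central-by-shift units -/
noncomputable def Tm : Multiplicative ℤ →* (PowerSeries (MonoidAlgebra k (WMon (Ltr I))))ˣ where
  toFun z :=
    { val := PowerSeries.C (tt k z.toAdd)
      inv := PowerSeries.C (tt k (- z.toAdd))
      val_inv := by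
        rw [← map_mul, tt, tt, MonoidAlgebra.single_mul_single, mul_one]
        have : (⟨[], z.toAdd⟩ * ⟨[], - z.toAdd⟩ : WMon (Ltr I)) = 1 := by
          ext1 <;> simp
        rw [this, ← MonoidAlgebra.one_def, map_one]
      inv_val := by
        rw [← map_mul, tt, tt, MonoidAlgebra.single_mul_single, mul_one]
        have : (⟨[], - z.toAdd⟩ * ⟨[], z.toAdd⟩ : WMon (Ltr I)) = 1 := by
          ext1 <;> simp
        rw [this, ← MonoidAlgebra.one_def, map_one] }
  map_one' := by
    ext1
    show PowerSeries.C (tt k 0) = 1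
    rw [← map_one PowerSeries.C]; rfl
  map_mul' a b := by
    ext1
    show PowerSeries.C (tt k (a.toAdd + b.toAdd)) =
      PowerSeries.C (tt k a.toAdd) * PowerSeries.C (tt k b.toAdd)
    rw [← map_mul, tt, tt, tt, MonoidAlgebra.single_mul_single, mul_one]
    rfl

/-- the exponent sum of the distinguished generator -/
def nu : FreeGroup (Option I) →* Multiplicative ℤ :=
  FreeGroup.lift (fun o => match o with
    | none => Multiplicative.ofAdd 1
    | some _ => 1)

/-- the twisted Magnus map on the group -/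
noncomputable def phi : FreeGroup (Option I) →* (PowerSeries (MonoidAlgebra k (WMon (Ltr I))))ˣ :=
  FreeGroup.lift (fun o => match o with
    | none => Tm k (Multiplicative.ofAdd 1)
    | some i => U k ⟨0, i⟩)

/-- the conjugates -/
def kap : FreeGroup (Ltr I) →* FreeGroup (Option I) :=
  FreeGroup.lift (fun x => FreeGroup.of none ^ x.z * FreeGroup.of (some x.i) *
    (FreeGroup.of none ^ x.z)⁻¹)

lemma phi_none_zpow (z : ℤ) : phi k (FreeGroup.of none ^ z : FreeGroup (Option I)) =
    Tm k (Multiplicative.ofAdd z) := by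
  rw [map_zpow]
  have : phi k (FreeGroup.of none : FreeGroup (Option I)) = Tm k (Multiplicative.ofAdd 1) := by
    simp [phi]
  rw [this, ← map_zpow, ← ofAdd_zsmul, smul_eq_mul, mul_one]

lemma phi_kap (n : FreeGroup (Ltr I)) : ((phi k (kap n) :
    (PowerSeries (MonoidAlgebra k (WMon (Ltr I))))ˣ) : PowerSeries (MonoidAlgebra k (WMon (Ltr I))))
      = magHom k n := by
  have : (phi k).comp (kap (I := I)) = FreeGroup.lift (U k) := by
    ext x : 1
    rw [MonoidHom.comp_apply, kap, FreeGroup.lift_apply_of, map_mul, map_mul, map_inv,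
      phi_none_zpow, FreeGroup.lift_apply_of]
    have h1 : phi k (FreeGroup.of (some x.i) : FreeGroup (Option I)) = U k ⟨0, x.i⟩ := by
      simp [phi]
    rw [h1, mul_inv_eq_iff_eq_mul]
    ext1
    rw [Units.val_mul, Units.val_mul]
    show PowerSeries.C (tt k x.z) * (1 + PowerSeries.C (zeta k ⟨0, x.i⟩) *
      PowerSeries.X) = (1 + PowerSeries.C (zeta k x) * PowerSeries.X) *
        PowerSeries.C (tt k x.z)
    have hc : tt k x.z * zeta k ⟨0, x.i⟩ = zeta k x * tt k x.z := by
      rw [tt, zeta, zeta, MonoidAlgebra.single_mul_single, MonoidAlgebra.single_mul_single]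
      congr 1
      ext1
      · have : (x.z +ᵥ (⟨0, x.i⟩ : Ltr I)) = x := by ext1 <;> simp
        simp [this]
      · simp
    rw [mul_add, add_mul, mul_one, one_mul, ← mul_assoc, ← map_mul, mul_assoc, PowerSeries.X_mul,
      ← mul_assoc, ← map_mul, hc]
  have h2 := DFunLike.congr_fun this n
  rw [MonoidHom.comp_apply] at h2
  rw [h2]
  rfl

lemma nu_none_zpow (z : ℤ) : nu (FreeGroup.of none ^ z : FreeGroup (Option I)) =
    Multiplicative.ofAdd z := by
  rw [map_zpow]
  have : nu (FreeGroup.of none : FreeGroup (Option I)) = Multiplicative.ofAdd 1 := by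
    simp [nu]
  rw [this, ← ofAdd_zsmul, smul_eq_mul, mul_one]

lemma conj_kap (z : ℤ) (m : FreeGroup (Ltr I)) :
    FreeGroup.of none ^ z * kap m * (FreeGroup.of none ^ z)⁻¹ =
      kap (FreeGroup.map (fun x => z +ᵥ x) m) := by
  have : ((MulAut.conj (FreeGroup.of none ^ z : FreeGroup (Option I))).toMonoidHom).comp kap
      = kap.comp (FreeGroup.map (fun x : Ltr I => z +ᵥ x)) := by
    ext x : 1
    simp only [MonoidHom.comp_apply, kap, FreeGroup.lift_apply_of, FreeGroup.map.of,
      MulEquiv.coe_toMonoidHom, MulAut.conj_apply, Ltr.vadd_z, Ltr.vadd_i, zpow_add]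
    group
  exact DFunLike.congr_fun this m

/-- every element is a product of a conjugate-word and a power of the distinguished generator -/
lemma exists_kap (g : FreeGroup (Option I)) :
    ∃ n : FreeGroup (Ltr I), g = kap n * FreeGroup.of none ^ (nu g).toAdd := by
  induction g using FreeGroup.induction_on with
  | C1 => exact ⟨1, by simp⟩
  | of o =>
    cases o with
    | none =>
      refine ⟨1, ?_⟩
      have : nu (FreeGroup.of none : FreeGroup (Option I)) = Multiplicative.ofAdd 1 := by simp [nu]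
      rw [map_one, one_mul, this]
      simp
    | some i =>
      refine ⟨FreeGroup.of ⟨0, i⟩, ?_⟩
      have : nu (FreeGroup.of (some i) : FreeGroup (Option I)) = 1 := by simp [nu]
      rw [this]
      simp [kap]
  | inv_of o ih =>
    obtain ⟨n, hn⟩ := ih
    generalize FreeGroup.of o = g at hn ⊢
    refine ⟨FreeGroup.map (fun x => (-(nu g).toAdd) +ᵥ x) n⁻¹, ?_⟩
    rw [← conj_kap, map_inv, map_inv, toAdd_inv]
    conv_lhs => rw [hn]
    rw [mul_inv_rev]
    group
  | mul g h ihg ihh =>
    obtain ⟨n, hn⟩ := ihg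
    obtain ⟨m, hm⟩ := ihh
    refine ⟨n * FreeGroup.map (fun x => (nu g).toAdd +ᵥ x) m, ?_⟩
    rw [map_mul, ← conj_kap, map_mul, toAdd_mul, zpow_add]
    conv_lhs => rw [hn, hm]
    group

/-- homogeneity of an element of the monoid algebra -/
def HB (n : ℕ) (δ : ℤ) (b : MonoidAlgebra k (WMon (Ltr I))) : Prop :=
  ∀ m, b.coeff m ≠ 0 → m.w.length = n ∧ m.d = δ

lemma HB.mul {n n' : ℕ} {δ δ' : ℤ} {b b' : MonoidAlgebra k (WMon (Ltr I))}
    (h : HB k n δ b) (h' : HB k n' δ' b') : HB k (n + n') (δ + δ') (b * b') := by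
  classical
  intro m hm
  have h1 := MonoidAlgebra.support_coeff_mul_subset b b' (Finsupp.mem_support_iff.mpr hm)
  obtain ⟨x, hx, y, hy, rfl⟩ := Finset.mem_mul.mp h1
  obtain ⟨h2, h3⟩ := h x (Finsupp.mem_support_iff.mp hx)
  obtain ⟨h4, h5⟩ := h' y (Finsupp.mem_support_iff.mp hy)
  rw [WMon.mul_len, WMon.mul_d, h2, h3, h4, h5]
  exact ⟨rfl, rfl⟩

lemma HB.sum {n : ℕ} {δ : ℤ} {ι : Type} (s : Finset ι) (b : ι → MonoidAlgebra k (WMon (Ltr I)))
    (h : ∀ i ∈ s, HB k n δ (b i)) : HB k n δ (∑ i ∈ s, b i) := by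
  classical
  intro m hm
  rw [MonoidAlgebra.coeff_sum, Finsupp.finsetSum_apply] at hm
  obtain ⟨i, hi, hi2⟩ := Finset.exists_ne_zero_of_sum_ne_zero hm
  exact h i hi m hi2

lemma HB.single (m : WMon (Ltr I)) (a : k) : HB k m.w.length m.d (single m a) := by
  classical
  intro m' hm'
  rw [MonoidAlgebra.coeff_single, Finsupp.single_apply] at hm'
  by_cases h : m = m'
  · subst h; exact ⟨rfl, rfl⟩
  · simp [h] at hm'

lemma HB.neg {n : ℕ} {δ : ℤ} {b : MonoidAlgebra k (WMon (Ltr I))} (h : HB k n δ b) :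
    HB k n δ (-b) := by
  intro m hm
  apply h m
  intro h0
  apply hm
  rw [MonoidAlgebra.coeff_neg, Finsupp.neg_apply, h0, neg_zero]

lemma HB.zero {n : ℕ} {δ : ℤ} : HB k n δ (0 : MonoidAlgebra k (WMon (Ltr I))) := by
  intro m hm; simp at hm

/-- homogeneity of a series -/
def HS (δ : ℤ) (S : PowerSeries (MonoidAlgebra k (WMon (Ltr I)))) : Prop :=
  ∀ n, HB k n δ (PowerSeries.coeff n S)

lemma HS.mul {δ δ' : ℤ} {S S' : PowerSeries (MonoidAlgebra k (WMon (Ltr I)))}
    (h : HS k δ S) (h' : HS k δ' S') : HS k (δ + δ') (S * S') := by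
  intro n
  rw [PowerSeries.coeff_mul]
  apply HB.sum
  intro p hp
  rw [← Finset.HasAntidiagonal.mem_antidiagonal.mp hp]
  exact (h p.1).mul k (h' p.2)

lemma HS.C_tt (z : ℤ) : HS k z (PowerSeries.C (tt k z : MonoidAlgebra k (WMon (Ltr I)))) := by
  intro n
  rw [PowerSeries.coeff_C]
  split_ifs with h
  · subst h; exact HB.single k ⟨[], z⟩ 1
  · exact HB.zero k

lemma HS.one : HS k 0 (1 : PowerSeries (MonoidAlgebra k (WMon (Ltr I)))) := by
  have : (1 : PowerSeries (MonoidAlgebra k (WMon (Ltr I)))) = PowerSeries.C (tt k 0) := by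
    rw [← map_one PowerSeries.C]; rfl
  rw [this]; exact HS.C_tt k 0

lemma HS.ofU (x : Ltr I) : HS k 0 ((U k x : (PowerSeries (MonoidAlgebra k (WMon (Ltr I))))ˣ) :
    PowerSeries (MonoidAlgebra k (WMon (Ltr I)))) := by
  intro n
  show HB k n 0 (PowerSeries.coeff n (1 + PowerSeries.C (zeta k x) * PowerSeries.X))
  rw [map_add, PowerSeries.coeff_C_mul, PowerSeries.coeff_X, PowerSeries.coeff_one]
  rcases n with _ | _ | n
  · simp only [if_true, zero_ne_one, if_false, mul_zero, add_zero]
    exact HB.single k ⟨[], 0⟩ 1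
  · simp only [zero_add, one_ne_zero, if_false, if_true, mul_one]
    exact HB.single k ⟨[x], 0⟩ 1
  · simp
    exact HB.zero k

lemma HS.ofUinv (x : Ltr I) : HS k 0 (((U k x)⁻¹ : (PowerSeries (MonoidAlgebra k (WMon (Ltr I))))ˣ) :
    PowerSeries (MonoidAlgebra k (WMon (Ltr I)))) := by
  intro n
  show HB k n 0 (PowerSeries.coeff n (PowerSeries.mk (fun n => (- zeta k x) ^ n)))
  rw [PowerSeries.coeff_mk]
  induction n with
  | zero => rw [pow_zero]; exact HB.single k ⟨[], 0⟩ 1
  | succ n ih =>
    rw [pow_succ]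
    exact ih.mul k (δ' := 0) (HB.neg k (HB.single k ⟨[x], 0⟩ 1))

/-- the image of a group element is homogeneous of degree its exponent sum -/
lemma HS_phi (g : FreeGroup (Option I)) : HS k (nu g).toAdd ((phi k g :
    (PowerSeries (MonoidAlgebra k (WMon (Ltr I))))ˣ) : PowerSeries (MonoidAlgebra k (WMon (Ltr I)))) := by
  induction g using FreeGroup.induction_on with
  | C1 => simpa using HS.one k
  | of o =>
    cases o with
    | none =>
      have h1 : nu (FreeGroup.of none : FreeGroup (Option I)) = Multiplicative.ofAdd 1 := by simp [nu]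
      have h2 : phi k (FreeGroup.of none : FreeGroup (Option I)) = Tm k (Multiplicative.ofAdd 1) := by
        simp [phi]
      rw [h1, h2]
      exact HS.C_tt k 1
    | some i =>
      have h1 : nu (FreeGroup.of (some i) : FreeGroup (Option I)) = 1 := by simp [nu]
      have h2 : phi k (FreeGroup.of (some i) : FreeGroup (Option I)) = U k ⟨0, i⟩ := by
        simp [phi]
      rw [h1, h2]
      exact HS.ofU k _
  | inv_of o ih =>
    cases o with
    | none =>
      have h1 : nu (FreeGroup.of none : FreeGroup (Option I)) = Multiplicative.ofAdd 1 := by simp [nu]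
      have h2 : phi k (FreeGroup.of none : FreeGroup (Option I)) = Tm k (Multiplicative.ofAdd 1) := by
        simp [phi]
      rw [MonoidHom.map_inv, MonoidHom.map_inv, h1, h2]
      exact HS.C_tt k (-1)
    | some i =>
      have h1 : nu (FreeGroup.of (some i) : FreeGroup (Option I)) = 1 := by simp [nu]
      have h2 : phi k (FreeGroup.of (some i) : FreeGroup (Option I)) = U k ⟨0, i⟩ := by
        simp [phi]
      rw [MonoidHom.map_inv, MonoidHom.map_inv, h1, h2, inv_one]
      exact HS.ofUinv k _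
  | mul g h ihg ihh =>
    rw [MonoidHom.map_mul, MonoidHom.map_mul, Units.val_mul, toAdd_mul]
    exact ihg.mul k ihh

/-- the constant term of the image of a group element -/
lemma phi_zero (g : FreeGroup (Option I)) : PowerSeries.coeff 0 ((phi k g :
    (PowerSeries (MonoidAlgebra k (WMon (Ltr I))))ˣ) : PowerSeries (MonoidAlgebra k (WMon (Ltr I))))
      = tt k (nu g).toAdd := by
  rw [PowerSeries.coeff_zero_eq_constantCoeff]
  let f : FreeGroup (Option I) →* MonoidAlgebra k (WMon (Ltr I)) :=
    ((PowerSeries.constantCoeff (R := MonoidAlgebra k (WMon (Ltr I)))).toMonoidHom.comp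
      (Units.coeHom _)).comp (phi k)
  let f' : FreeGroup (Option I) →* MonoidAlgebra k (WMon (Ltr I)) :=
    ((PowerSeries.constantCoeff (R := MonoidAlgebra k (WMon (Ltr I)))).toMonoidHom.comp
      (Units.coeHom _)).comp ((Tm k).comp nu)
  have hff : f = f' := by
    apply FreeGroup.ext_hom
    intro o
    cases o with
    | none =>
      simp [f, f', phi, nu]
    | some i =>
      simp [f, f', phi, nu, U]
  have h1 := DFunLike.congr_fun hff g
  have h2 : f' g = tt k (nu g).toAdd := by
    show PowerSeries.constantCoeff (PowerSeries.C (tt k (nu g).toAdd)) = _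
    rw [PowerSeries.constantCoeff_C]
  rw [← h2, ← h1]
  rfl

/-- the twisted Magnus map of the group algebra -/
noncomputable def Phi : MonoidAlgebra k (FreeGroup (Option I)) →ₐ[k]
    PowerSeries (MonoidAlgebra k (WMon (Ltr I))) :=
  MonoidAlgebra.lift k _ _ ((Units.coeHom _).comp (phi k))

/-- the coefficient of a monomial in the image -/
noncomputable def cf (r : MonoidAlgebra k (FreeGroup (Option I))) (n : ℕ) (m : WMon (Ltr I)) : k :=
  (PowerSeries.coeff n (Phi k r)).coeff m

lemma cf_eq (r : MonoidAlgebra k (FreeGroup (Option I))) (n : ℕ) (m : WMon (Ltr I)) :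
    cf k r n m = r.coeff.sum (fun g a => a * (PowerSeries.coeff n ((phi k g :
    (PowerSeries (MonoidAlgebra k (WMon (Ltr I))))ˣ) :
      PowerSeries (MonoidAlgebra k (WMon (Ltr I))))).coeff m) := by
  rw [cf, Phi, MonoidAlgebra.lift_apply, Finsupp.sum, Finsupp.sum, map_sum,
    MonoidAlgebra.coeff_sum, Finsupp.finsetSum_apply]
  apply Finset.sum_congr rfl
  intro g _
  rfl

end Pool.Agent.H129R3
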