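import Mathlib
import Pool.Agent.H129R3.Twist

set_option autoImplicit false

namespace Pool.Agent.H129R3

open MonoidAlgebra PowerSeries

variable (k : Type) [Field k] {I : Type}

lemma cf_ne_zero (r : MonoidAlgebra k (FreeGroup (Option I))) (n : ℕ) (m : WMon (Ltr I))
    (h : cf k r n m ≠ 0) : m.w.length = n ∧ ∃ g, r.coeff g ≠ 0 ∧ m.d = (nu g).toAdd := by
  rw [cf_eq] at h
  obtain ⟨g, hg, hg2⟩ := Finset.exists_ne_zero_of_sum_ne_zero h
  have h1 : (PowerSeries.coeff n ((phi k g :
    (PowerSeries (MonoidAlgebra k (WMon (Ltr I))))ˣ) :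
      PowerSeries (MonoidAlgebra k (WMon (Ltr I))))).coeff m ≠ 0 := by
    intro h0
    apply hg2
    show _ * _ = _
    rw [h0, mul_zero]
  have h2 := HS_phi k g n m h1
  exact ⟨h2.1, g, Finsupp.mem_support_iff.mp hg, h2.2⟩

/-- the projection to Laurent polynomials -/
noncomputable def pj : MonoidAlgebra k (FreeGroup (Option I)) →ₐ[k] LaurentPolynomial k :=
  MonoidAlgebra.lift k _ _ ((AddMonoidAlgebra.of k ℤ).comp nu)

lemma cf_zero (r : MonoidAlgebra k (FreeGroup (Option I))) (d : ℤ) :
    cf k r 0 ⟨[], d⟩ = (pj k r).coeff d := by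
  classical
  rw [cf_eq, pj, MonoidAlgebra.lift_apply, Finsupp.sum, Finsupp.sum,
    AddMonoidAlgebra.coeff_sum, Finsupp.finsetSum_apply]
  apply Finset.sum_congr rfl
  intro g _
  rw [phi_zero, AddMonoidAlgebra.coeff_smul, Finsupp.smul_apply, smul_eq_mul]
  congr 1
  show (tt k (nu g).toAdd).coeff ⟨[], d⟩ = (AddMonoidAlgebra.single (nu g).toAdd (1:k)).coeff d
  rw [tt, MonoidAlgebra.coeff_single, AddMonoidAlgebra.coeff_single, Finsupp.single_apply,
    Finsupp.single_apply]
  by_cases h : (nu g).toAdd = d
  · rw [if_pos h, if_pos (by rw [h])]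
  · rw [if_neg h, if_neg (by intro h2; exact h (congrArg WMon.d h2))]

lemma cf_exists (r : MonoidAlgebra k (FreeGroup (Option I))) (g : FreeGroup (Option I))
    (hg : r.coeff g ≠ 0) : ∃ n m, m.d = (nu g).toAdd ∧ cf k r n m ≠ 0 := by
  classical
  by_contra hcon
  push Not at hcon
  set d := (nu g).toAdd with hd
  choose nn hnn using exists_kap (I := I)
  -- the homogeneous component
  let rd : MonoidAlgebra k (FreeGroup (Option I)) :=
    .ofCoeff (r.coeff.filter (fun h => (nu h).toAdd = d))
  have hrdg : rd.coeff g = r.coeff g := by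
    show (r.coeff.filter (fun h => (nu h).toAdd = d)) g = _
    rw [Finsupp.filter_apply_pos]
    rfl
  have hcf : ∀ n m, cf k rd n m = 0 := by
    intro n m
    by_cases hm : m.d = d
    · rw [← hcon n m hm, cf_eq, cf_eq]
      show (r.coeff.filter (fun h => (nu h).toAdd = d)).sum _ = _
      rw [Finsupp.sum, Finsupp.sum, Finsupp.support_filter, Finset.sum_filter]
      apply Finset.sum_congr rfl
      intro h _
      split_ifs with h1
      · rw [Finsupp.filter_apply_pos (fun h => (nu h).toAdd = d) _ h1]
      · symm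
        by_contra h2
        apply h1
        have h3 : (PowerSeries.coeff n ((phi k h :
          (PowerSeries (MonoidAlgebra k (WMon (Ltr I))))ˣ) :
            PowerSeries (MonoidAlgebra k (WMon (Ltr I))))).coeff m ≠ 0 := by
          intro h0
          apply h2
          rw [h0, mul_zero]
        rw [← hm]
        exact (HS_phi k h n m h3).2.symm
    · by_contra h0
      obtain ⟨h1, h, h2, h3⟩ := cf_ne_zero k rd n m h0
      apply hm
      rw [h3]
      by_contra h4
      exact h2 (Finsupp.filter_apply_neg _ _ h4)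
  have hPhi : Phi k rd = 0 := by
    ext1 n
    ext m
    exact hcf n m
  -- pull back to the free group on letters
  let r' : MonoidAlgebra k (FreeGroup (Ltr I)) := rd.coeff.sum (fun h a => single (nn h) a)
  have h1 : mapDomainAlgHom k k kap r' = rd * single (FreeGroup.of none ^ (-d)) 1 := by
    have e2 : rd * single (FreeGroup.of none ^ (-d)) 1 =
        rd.coeff.sum (fun h a => single (h * FreeGroup.of none ^ (-d)) a) := by
      conv_lhs => rw [← MonoidAlgebra.sum_coeff_single rd]
      rw [Finsupp.sum, Finset.sum_mul]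
      apply Finset.sum_congr rfl
      intro h _
      rw [MonoidAlgebra.single_mul_single, mul_one]
    rw [e2]
    show mapDomainAlgHom k k kap (∑ h ∈ rd.coeff.support, single (nn h) (rd.coeff h)) =
      ∑ h ∈ rd.coeff.support, single (h * FreeGroup.of none ^ (-d)) (rd.coeff h)
    rw [map_sum]
    apply Finset.sum_congr rfl
    intro h hh
    have h5 : (nu h).toAdd = d := by
      by_contra h4
      exact (Finsupp.mem_support_iff.mp hh) (Finsupp.filter_apply_neg _ _ h4)
    rw [MonoidAlgebra.mapDomainAlgHom_apply, MonoidAlgebra.mapDomain_single]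
    congr 1
    conv_rhs => rw [hnn h]
    rw [h5, mul_assoc, ← zpow_add, add_neg_cancel, zpow_zero, mul_one]
  have h2 : (Phi k).comp (mapDomainAlgHom k k kap) = mag k (J := Ltr I) := by
    apply MonoidAlgebra.algHom_ext
    · intro n
      rw [AlgHom.comp_apply, MonoidAlgebra.mapDomainAlgHom_apply, MonoidAlgebra.mapDomain_single,
        Phi, MonoidAlgebra.lift_single, one_smul, mag_single, one_smul]
      exact phi_kap k n
    · ext
  have h3 : mag k r' = 0 := by
    rw [← h2, AlgHom.comp_apply, h1, map_mul, hPhi, zero_mul]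
  have h4 : r' = 0 := mag_injective k (by rw [h3, map_zero])
  rw [h4, map_zero] at h1
  have h5 : rd = 0 := by
    have h6 : rd * single (FreeGroup.of none ^ (-d)) 1 * single (FreeGroup.of none ^ d) 1 = rd := by
      rw [mul_assoc, MonoidAlgebra.single_mul_single, ← zpow_add, neg_add_cancel, zpow_zero,
        mul_one, ← MonoidAlgebra.one_def, mul_one]
    rw [← h6, ← h1, zero_mul]
  rw [h5] at hrdg
  exact hg hrdg.symm

end Pool.Agent.H129R3
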