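import Mathlib
import Pool.Agent.H129R3.Mon

set_option autoImplicit false

namespace Pool.Agent.H129R3

open MonoidAlgebra PowerSeries

variable {J : Type} [AddAction ℤ J] [LinearOrder J]

/-- monomials not moving the half space up -/
def PU (p q : ℤ) (u : ℕ → J) (m : WMon J) : Prop :=
  q * m.d < p * m.w.length ∨ (q * m.d = p * m.w.length ∧ toLex (m.act u) ≤ toLex u)

/-- monomials stabilizing -/
def TU (p q : ℤ) (u : ℕ → J) (m : WMon J) : Prop :=
  q * m.d = p * m.w.length ∧ m.act u = u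

omit [LinearOrder J] in
lemma TU_one (p q : ℤ) (u : ℕ → J) : TU p q u 1 := by
  refine ⟨by simp, WMon.act_one u⟩

lemma TU.pu {p q : ℤ} {u : ℕ → J} {m : WMon J} (h : TU p q u m) : PU p q u m :=
  Or.inr ⟨h.1, by rw [h.2]⟩

lemma PU.mul (hmono : ∀ (d : ℤ) (x y : J), x < y → d +ᵥ x < d +ᵥ y)
    {p q : ℤ} {u : ℕ → J} {a b : WMon J} (ha : PU p q u a) (hb : PU p q u b) :
    PU p q u (a * b) := by
  have hl : (((a * b).w.length : ℕ) : ℤ) = a.w.length + b.w.length := by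
    rw [WMon.mul_len]; push_cast; rfl
  have hd : (a * b).d = a.d + b.d := rfl
  unfold PU at *
  rw [hl, hd]
  rcases ha with ha | ⟨ha, ha'⟩
  · left
    rcases hb with hb | ⟨hb, _⟩
    · linarith
    · linarith
  · rcases hb with hb | ⟨hb, hb'⟩
    · left; linarith
    · right
      refine ⟨by linarith, ?_⟩
      rw [WMon.act_mul]
      exact (WMon.act_le_act hmono a hb').trans ha'

lemma TU_mul_iff (hmono : ∀ (d : ℤ) (x y : J), x < y → d +ᵥ x < d +ᵥ y)
    {p q : ℤ} {u : ℕ → J} {a b : WMon J} (ha : PU p q u a) (hb : PU p q u b) :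
    TU p q u (a * b) ↔ TU p q u a ∧ TU p q u b := by
  have hl : (((a * b).w.length : ℕ) : ℤ) = a.w.length + b.w.length := by
    rw [WMon.mul_len]; push_cast; rfl
  have hd : (a * b).d = a.d + b.d := rfl
  constructor
  · rintro ⟨h1, h2⟩
    rw [hl, hd] at h1
    rw [WMon.act_mul] at h2
    rcases ha with ha | ⟨ha, ha'⟩
    · exfalso
      rcases hb with hb | ⟨hb, _⟩ <;> linarith
    · rcases hb with hb | ⟨hb, hb'⟩
      · exfalso; linarith
      · have h3 : toLex (a.act (b.act u)) ≤ toLex (a.act u) := WMon.act_le_act hmono a hb'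
        rw [h2] at h3
        have h4 : a.act u = u := toLex_inj.mp (le_antisymm ha' h3)
        have h5 : b.act u = u := by
          apply WMon.act_inj a
          rw [h2, h4]
        exact ⟨⟨ha, h4⟩, ⟨hb, h5⟩⟩
  · rintro ⟨⟨h1, h2⟩, ⟨h3, h4⟩⟩
    refine ⟨?_, ?_⟩
    · rw [hl, hd]; linarith
    · rw [WMon.act_mul, h4, h2]

/-- choice of the extremal monomial -/
lemma select (Q : WMon J → Prop) (hQ : ∀ m, Q m → 0 < m.w.length)
    (D : ℤ) (hD : ∀ m, Q m → m.d ≤ D) (hfin : ∀ E : ℕ, {m | Q m ∧ m.w.length ≤ E}.Finite)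
    (m₁ : WMon J) (hm₁ : Q m₁) (hd₁ : 0 < m₁.d) :
    ∃ (m₀ : WMon J) (u : ℕ → J), Q m₀ ∧ 0 < m₀.d ∧ m₀.act u = u ∧
      ∀ m, Q m → PU m₀.d m₀.w.length u m := by
  classical
  have he₁ := hQ m₁ hm₁
  have hD0 : 0 < D := lt_of_lt_of_le hd₁ (hD m₁ hm₁)
  set E : ℕ := D.toNat * m₁.w.length with hE
  let F : Finset (WMon J) := (hfin E).toFinset
  have hF : ∀ m, m ∈ F ↔ Q m ∧ m.w.length ≤ E := by
    intro m; simp [F]
  have hm₁F : m₁ ∈ F := by
    rw [hF]
    refine ⟨hm₁, ?_⟩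
    have : 1 ≤ D.toNat := by omega
    calc m₁.w.length = 1 * m₁.w.length := (one_mul _).symm
      _ ≤ D.toNat * m₁.w.length := Nat.mul_le_mul_right _ this
  let key : F → ℚ ×ₗ Lex (ℕ → J) := fun m =>
    toLex ((m.1.d : ℚ) / (m.1.w.length : ℚ), toLex (m.1.fix (hQ m.1 ((hF m.1).mp m.2).1)))
  obtain ⟨⟨m₀, hm₀F⟩, _, hmax⟩ := Finset.exists_max_image (Finset.univ : Finset F) key
    ⟨⟨m₁, hm₁F⟩, Finset.mem_univ _⟩
  have hQ₀ : Q m₀ := ((hF m₀).mp hm₀F).1
  have he₀ := hQ m₀ hQ₀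
  have hcmp : ∀ m (hm : m ∈ F), (m.d : ℚ) / (m.w.length : ℚ) < (m₀.d : ℚ) / (m₀.w.length : ℚ) ∨
      ((m.d : ℚ) / (m.w.length : ℚ) = (m₀.d : ℚ) / (m₀.w.length : ℚ) ∧
        toLex (m.fix (hQ m ((hF m).mp hm).1)) ≤ toLex (m₀.fix he₀)) := by
    intro m hm
    have := hmax ⟨m, hm⟩ (Finset.mem_univ _)
    simp only [key] at this
    rw [Prod.Lex.toLex_le_toLex] at this
    exact this
  have hle₁ : (m₁.d : ℚ) / (m₁.w.length : ℚ) ≤ (m₀.d : ℚ) / (m₀.w.length : ℚ) := by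
    rcases hcmp m₁ hm₁F with h | h
    · exact h.le
    · exact h.1.le
  have he₁' : (0 : ℚ) < m₁.w.length := by exact_mod_cast he₁
  have he₀' : (0 : ℚ) < m₀.w.length := by exact_mod_cast he₀
  have hd₁' : (1 : ℚ) ≤ m₁.d := by exact_mod_cast hd₁
  have hd₀ : 0 < m₀.d := by
    have h1 : (0 : ℚ) < (m₁.d : ℚ) / (m₁.w.length : ℚ) := by positivity
    have h2 := lt_of_lt_of_le h1 hle₁
    have h3 : (0 : ℚ) < m₀.d := by
      by_contra h4
      push Not at h4
      have : (m₀.d : ℚ) / (m₀.w.length : ℚ) ≤ 0 := div_nonpos_of_nonpos_of_nonneg h4 he₀'.le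
      linarith
    exact_mod_cast h3
  refine ⟨m₀, m₀.fix he₀, hQ₀, hd₀, WMon.act_fix m₀ he₀, ?_⟩
  intro m hm
  have he := hQ m hm
  have he' : (0 : ℚ) < m.w.length := by exact_mod_cast he
  have conv1 : (m.d : ℚ) / (m.w.length : ℚ) < (m₀.d : ℚ) / (m₀.w.length : ℚ) →
      (m₀.w.length : ℤ) * m.d < m₀.d * m.w.length := by
    intro h
    rw [div_lt_div_iff₀ he' he₀'] at h
    have : (m.d : ℚ) * (m₀.w.length : ℚ) < m₀.d * m.w.length := h
    have h2 : m.d * (m₀.w.length : ℤ) < m₀.d * m.w.length := by exact_mod_cast this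
    linarith
  by_cases hmE : m.w.length ≤ E
  · have hmF : m ∈ F := (hF m).mpr ⟨hm, hmE⟩
    rcases hcmp m hmF with h | ⟨h, h'⟩
    · left; exact conv1 h
    · right
      refine ⟨?_, WMon.act_le_of_fix_le m he (WMon.act_fix m he) h'⟩
      rw [div_eq_div_iff he'.ne' he₀'.ne'] at h
      have h2 : m.d * (m₀.w.length : ℤ) = m₀.d * m.w.length := by exact_mod_cast h
      linarith
  · left
    apply conv1
    refine lt_of_lt_of_le ?_ hle₁
    push Not at hmE
    have h1 : (m.d : ℚ) ≤ D := by exact_mod_cast hD m hm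
    have h2 : (D : ℚ) * m₁.w.length < m.w.length := by
      have h3 : (D.toNat : ℚ) * m₁.w.length < m.w.length := by exact_mod_cast hmE
      have h4 : ((D.toNat : ℤ) : ℚ) = D := by rw [Int.toNat_of_nonneg hD0.le]
      have h5 : (D.toNat : ℚ) = D := by exact_mod_cast h4
      rwa [h5] at h3
    rw [div_lt_div_iff₀ he' he₁']
    calc (m.d : ℚ) * m₁.w.length ≤ D * m₁.w.length := by
          apply mul_le_mul_of_nonneg_right h1 he₁'.le
      _ < m.w.length := h2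
      _ ≤ m₁.d * m.w.length := by
          nlinarith

end Pool.Agent.H129R3
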