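import Mathlib
import Pool.Agent.H129R3.Select

set_option autoImplicit false

namespace Pool.Agent.H129R3

open MonoidAlgebra PowerSeries

/-! An abstract extraction of a commutative quotient. -/

section

variable (k : Type) [Field k] {M : Type} [Monoid M] (T P : M → Prop)

open Classical in
/-- sum of the coefficients over the stabilizer -/
noncomputable def tau : MonoidAlgebra k M →ₗ[k] k where
  toFun b := b.coeff.sum (fun m a => if T m then a else 0)
  map_add' b c := by
    rw [MonoidAlgebra.coeff_add, Finsupp.sum_add_index']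
    · intro m; simp
    · intro m x y
      split_ifs <;> simp
  map_smul' r b := by
    rw [MonoidAlgebra.coeff_smul, Finsupp.sum_smul_index, RingHom.id_apply, Finsupp.smul_sum]
    · congr 1
      funext m x
      split_ifs <;> simp
    · intro m; simp

open Classical in
lemma tau_apply (b : MonoidAlgebra k M) :
    tau k T b = ∑ m ∈ b.coeff.support, if T m then b.coeff m else 0 := rfl

open Classical in
lemma tau_single (m : M) (a : k) : tau k T (single m a) = if T m then a else 0 := by
  show (single m a).coeff.sum (fun m a => if T m then a else 0) = _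
  rw [MonoidAlgebra.coeff_single, Finsupp.sum_single_index]
  simp

/-- supported in `P` -/
def Sp (b : MonoidAlgebra k M) : Prop := ∀ m, b.coeff m ≠ 0 → P m

variable {T P}

lemma tau_mul (hTP : ∀ a b, P a → P b → (T (a * b) ↔ T a ∧ T b))
    {b c : MonoidAlgebra k M} (hb : Sp k P b) (hc : Sp k P c) :
    tau k T (b * c) = tau k T b * tau k T c := by
  classical
  rw [MonoidAlgebra.mul_def, Finsupp.sum, map_sum]
  rw [tau_apply k T b, Finset.sum_mul]
  apply Finset.sum_congr rfl
  intro m hm
  rw [Finsupp.sum, map_sum, tau_apply k T c, Finset.mul_sum]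
  apply Finset.sum_congr rfl
  intro m' hm'
  rw [tau_single]
  have h1 := hTP m m' (hb m (Finsupp.mem_support_iff.mp hm)) (hc m' (Finsupp.mem_support_iff.mp hm'))
  by_cases hT : T m
  · by_cases hT' : T m'
    · rw [if_pos (h1.mpr ⟨hT, hT'⟩), if_pos hT, if_pos hT']
    · rw [if_neg (fun h => hT' (h1.mp h).2), if_neg hT', mul_zero]
  · rw [if_neg (fun h => hT (h1.mp h).1), if_neg hT, zero_mul]

lemma Sp.mul (hP : ∀ a b, P a → P b → P (a * b))
    {b c : MonoidAlgebra k M} (hb : Sp k P b) (hc : Sp k P c) : Sp k P (b * c) := by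
  classical
  intro m hm
  have h1 := MonoidAlgebra.support_coeff_mul_subset b c (Finsupp.mem_support_iff.mpr hm)
  obtain ⟨x, hx, y, hy, rfl⟩ := Finset.mem_mul.mp h1
  exact hP x y (hb x (Finsupp.mem_support_iff.mp hx)) (hc y (Finsupp.mem_support_iff.mp hy))

lemma Sp.add {b c : MonoidAlgebra k M} (hb : Sp k P b) (hc : Sp k P c) : Sp k P (b + c) := by
  intro m hm
  by_cases h : b.coeff m = 0
  · apply hc m
    intro h2
    apply hm
    rw [MonoidAlgebra.coeff_add, Finsupp.add_apply, h, h2, add_zero]
  · exact hb m h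

lemma Sp.zero : Sp k P (0 : MonoidAlgebra k M) := by
  intro m hm; simp at hm

lemma Sp.sum {ι : Type} (s : Finset ι) (b : ι → MonoidAlgebra k M)
    (h : ∀ i ∈ s, Sp k P (b i)) : Sp k P (∑ i ∈ s, b i) := by
  classical
  intro m hm
  rw [MonoidAlgebra.coeff_sum, Finsupp.finsetSum_apply] at hm
  obtain ⟨i, hi, hi2⟩ := Finset.exists_ne_zero_of_sum_ne_zero hm
  exact h i hi m hi2

lemma Sp.single' {m : M} (a : k) (hm : P m) : Sp k P (single m a) := by
  classical
  intro m' hm'
  rw [MonoidAlgebra.coeff_single, Finsupp.single_apply] at hm'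
  by_cases h : m = m'
  · subst h; exact hm
  · simp [h] at hm'

variable {A : Type} [Ring A] [Algebra k A] (Ψ : A →ₐ[k] PowerSeries (MonoidAlgebra k M))

/-- all coefficients are supported in `P` -/
lemma Sp_all (hP1 : P 1) (hP : ∀ a b, P a → P b → P (a * b)) (S : Set A)
    (hS : Algebra.adjoin k S = ⊤) (hgen : ∀ s ∈ S, ∀ n, Sp k P (PowerSeries.coeff n (Ψ s))) (a : A) :
    ∀ n, Sp k P (PowerSeries.coeff n (Ψ a)) := by
  have ha : a ∈ Algebra.adjoin k S := by rw [hS]; trivial
  induction ha using Algebra.adjoin_induction with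
  | mem x hx => exact hgen x hx
  | algebraMap r =>
    intro n
    rw [AlgHom.commutes, PowerSeries.algebraMap_apply, PowerSeries.coeff_C]
    split_ifs
    · exact Sp.single' k _ hP1
    · exact Sp.zero k
  | add x y _ _ hx hy =>
    intro n
    rw [map_add, map_add]
    exact Sp.add k (hx n) (hy n)
  | mul x y _ _ hx hy =>
    intro n
    rw [map_mul, PowerSeries.coeff_mul]
    apply Sp.sum
    intro p _
    exact Sp.mul k hP (hx p.1) (hy p.2)

/-- the extracted homomorphism -/
noncomputable def extr (hTP : ∀ a b, P a → P b → (T (a * b) ↔ T a ∧ T b)) (hT1 : T 1)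
    (hΨ : ∀ a n, Sp k P (PowerSeries.coeff n (Ψ a))) : A →ₐ[k] PowerSeries k :=
  AlgHom.ofLinearMap
    { toFun := fun a => PowerSeries.mk (fun n => tau k T (PowerSeries.coeff n (Ψ a)))
      map_add' := by
        intro a b
        ext n
        simp [map_add]
      map_smul' := by
        intro c a
        ext n
        simp only [PowerSeries.coeff_mk, RingHom.id_apply, map_smul]
        have h1 : PowerSeries.coeff n (c • Ψ a) = c • PowerSeries.coeff n (Ψ a) := rfl
        rw [h1, map_smul] }
    (by
      show PowerSeries.mk (fun n => tau k T (PowerSeries.coeff n (Ψ 1))) = 1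
      ext n
      rw [map_one, PowerSeries.coeff_mk, PowerSeries.coeff_one, PowerSeries.coeff_one]
      split_ifs
      · rw [MonoidAlgebra.one_def, tau_single, if_pos hT1]
      · rw [map_zero])
    (by
      intro a b
      show PowerSeries.mk (fun n => tau k T (PowerSeries.coeff n (Ψ (a * b)))) =
        PowerSeries.mk (fun n => tau k T (PowerSeries.coeff n (Ψ a))) *
        PowerSeries.mk (fun n => tau k T (PowerSeries.coeff n (Ψ b)))
      ext n
      rw [PowerSeries.coeff_mk, map_mul, PowerSeries.coeff_mul, PowerSeries.coeff_mul, map_sum]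
      apply Finset.sum_congr rfl
      intro p _
      rw [PowerSeries.coeff_mk, PowerSeries.coeff_mk]
      exact tau_mul k hTP (hΨ a p.1) (hΨ b p.2))

lemma coeff_extr (hTP : ∀ a b, P a → P b → (T (a * b) ↔ T a ∧ T b)) (hT1 : T 1)
    (hΨ : ∀ a n, Sp k P (PowerSeries.coeff n (Ψ a))) (a : A) (n : ℕ) :
    PowerSeries.coeff n (extr k Ψ hTP hT1 hΨ a) = tau k T (PowerSeries.coeff n (Ψ a)) := by
  show PowerSeries.coeff n (PowerSeries.mk (fun n => tau k T (PowerSeries.coeff n (Ψ a)))) = _
  rw [PowerSeries.coeff_mk]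

end

section

variable (k : Type) [Field k] {A : Type} [Ring A] [Algebra k A]

/-- a homomorphism to power series with polynomial values, not all constant, gives a nontrivial
homomorphism to Laurent polynomials -/
lemma exists_laurent (F : A →ₐ[k] PowerSeries k)
    (hpoly : ∀ a, ∃ N : ℕ, ∀ n, N < n → PowerSeries.coeff n (F a) = 0)
    (a₀ : A) (n₀ : ℕ) (hn₀ : 0 < n₀) (h₀ : PowerSeries.coeff n₀ (F a₀) ≠ 0) :
    ∃ f : A →ₐ[k] LaurentPolynomial k, f.range ≠ ⊥ := by
  let c : Polynomial k →ₐ[k] PowerSeries k := Polynomial.coeToPowerSeries.algHom k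
  have hc : Function.Injective c := by
    intro p q hpq
    apply Polynomial.coe_injective k
    have h1 : ∀ p : Polynomial k, c p = (p : PowerSeries k) := by
      intro p
      show Polynomial.coeToPowerSeries.algHom k p = _
      rw [Polynomial.coeToPowerSeries.algHom_apply]
      simp
    rw [← h1, ← h1, hpq]
  have hcc : ∀ (p : Polynomial k) (n : ℕ), PowerSeries.coeff n (c p) = p.coeff n := by
    intro p n
    show PowerSeries.coeff n (Polynomial.coeToPowerSeries.algHom k p) = _
    rw [Polynomial.coeToPowerSeries.algHom_apply]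
    simp
  have hr : ∀ a, F a ∈ c.range := by
    intro a
    obtain ⟨N, hN⟩ := hpoly a
    refine ⟨PowerSeries.trunc (N + 1) (F a), ?_⟩
    ext n
    show PowerSeries.coeff n (c (PowerSeries.trunc (N + 1) (F a))) = _
    rw [hcc, PowerSeries.coeff_trunc]
    split_ifs with h
    · rfl
    · rw [hN n (by omega)]
  let e := AlgEquiv.ofInjective c hc
  let g : A →ₐ[k] Polynomial k := e.symm.toAlgHom.comp (F.codRestrict c.range hr)
  have hg : ∀ a, c (g a) = F a := by
    intro a
    have h1 : e (g a) = F.codRestrict c.range hr a := by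
      show e (e.symm (F.codRestrict c.range hr a)) = _
      rw [AlgEquiv.apply_symm_apply]
    have h2 := congrArg Subtype.val h1
    exact h2
  refine ⟨(Polynomial.toLaurentAlg).comp g, ?_⟩
  intro hbot
  have h1 : (Polynomial.toLaurentAlg.comp g) a₀ ∈ (Polynomial.toLaurentAlg.comp g).range := ⟨a₀, rfl⟩
  rw [hbot, Algebra.mem_bot] at h1
  obtain ⟨x, hx⟩ := h1
  have h2 : Polynomial.toLaurent (g a₀) = Polynomial.toLaurent (Polynomial.C x) := by
    rw [Polynomial.toLaurent_C]
    exact hx.symm
  have h3 := Polynomial.toLaurent_injective h2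
  apply h₀
  rw [← hg, hcc, h3, Polynomial.coeff_C_of_ne_zero hn₀.ne']

end

end Pool.Agent.H129R3
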