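import Mathlib
import Pool.Agent.H129R3.Coef
import Pool.Agent.H129R3.Extract

set_option autoImplicit false

namespace Pool.Agent.H129R3

open MonoidAlgebra PowerSeries

variable (k : Type) [Field k]

/-- a homomorphism with a nonconstant value is nontrivial -/
lemma range_ne_bot {A : Type} [Ring A] [Algebra k A] (f : A →ₐ[k] LaurentPolynomial k) (a : A)
    (d : ℤ) (hd : d ≠ 0) (h : (f a).coeff d ≠ 0) : f.range ≠ ⊥ := by
  intro hbot
  have h1 : f a ∈ f.range := ⟨a, rfl⟩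
  rw [hbot, Algebra.mem_bot] at h1
  obtain ⟨x, hx⟩ := h1
  apply h
  rw [← hx]
  have : (algebraMap k (LaurentPolynomial k)) x = AddMonoidAlgebra.single 0 x := rfl
  rw [this, AddMonoidAlgebra.coeff_single, Finsupp.single_eq_of_ne hd]

/-- the main argument, when some monomial of positive degree occurs -/
lemma main_pos {I : Type} [LinearOrder I] {A : Type} [Ring A] [Algebra k A]
    (ι : A →ₐ[k] MonoidAlgebra k (FreeGroup (Option I))) (S : Finset A)
    (hS : Algebra.adjoin k (S : Set A) = ⊤)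
    (hpos : ∃ s ∈ S, ∃ g, (ι s).coeff g ≠ 0 ∧ 0 < (nu g).toAdd) :
    ∃ f : A →ₐ[k] LaurentPolynomial k, f.range ≠ ⊥ := by
  classical
  by_cases hcase : ∃ s ∈ S, ∃ d : ℤ, d ≠ 0 ∧ (pj k (ι s)).coeff d ≠ 0
  · obtain ⟨s, _, d, hd, h⟩ := hcase
    exact ⟨(pj k).comp ι, range_ne_bot k _ s d hd h⟩
  push Not at hcase
  -- all monomials are 1 or have positive length
  have hone : ∀ s ∈ S, ∀ n m, cf k (ι s) n m ≠ 0 → m = 1 ∨ 0 < m.w.length := by
    intro s hs n m hm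
    rcases Nat.eq_zero_or_pos m.w.length with h0 | h0
    · left
      obtain ⟨h1, _⟩ := cf_ne_zero k (ι s) n m hm
      rw [h0] at h1
      subst h1
      have hw : m.w = [] := List.length_eq_zero_iff.mp h0
      have hm' : m = ⟨[], m.d⟩ := WMon.ext hw rfl
      rw [hm', cf_zero] at hm
      by_cases hd : m.d = 0
      · rw [hm', hd]; rfl
      · exact absurd (hcase s hs m.d hd) hm
    · right; exact h0
  let Q : WMon (Ltr I) → Prop := fun m => 0 < m.w.length ∧ ∃ s ∈ S, cf k (ι s) m.w.length m ≠ 0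
  have hQ : ∀ m, Q m → 0 < m.w.length := fun m h => h.1
  -- bound on the degrees
  obtain ⟨D, hD⟩ : ∃ D : ℤ, ∀ m, Q m → m.d ≤ D := by
    let V : Finset ℤ := S.biUnion (fun s => (ι s).coeff.support.image (fun g => (nu g).toAdd))
    obtain ⟨D, hD⟩ := V.bddAbove
    refine ⟨D, ?_⟩
    rintro m ⟨_, s, hs, hm⟩
    obtain ⟨_, g, hg, hg2⟩ := cf_ne_zero k (ι s) _ m hm
    apply hD
    rw [Finset.mem_coe, Finset.mem_biUnion]
    exact ⟨s, hs, Finset.mem_image.mpr ⟨g, Finsupp.mem_support_iff.mpr hg, hg2.symm⟩⟩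
  have hfin : ∀ E : ℕ, {m | Q m ∧ m.w.length ≤ E}.Finite := by
    intro E
    apply Set.Finite.subset (Finset.finite_toSet (S.biUnion (fun s =>
      (Finset.range (E + 1)).biUnion (fun n => (PowerSeries.coeff n (Phi k (ι s))).coeff.support))))
    rintro m ⟨⟨_, s, hs, hm⟩, hE⟩
    rw [Finset.mem_coe, Finset.mem_biUnion]
    refine ⟨s, hs, Finset.mem_biUnion.mpr ⟨m.w.length, Finset.mem_range.mpr (by omega), ?_⟩⟩
    exact Finsupp.mem_support_iff.mpr hm
  obtain ⟨m₁, hm₁, hd₁⟩ : ∃ m, Q m ∧ 0 < m.d := by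
    obtain ⟨s, hs, g, hg, hg2⟩ := hpos
    obtain ⟨n, m, hm, hm2⟩ := cf_exists k (ι s) g hg
    rcases hone s hs n m hm2 with h1 | h1
    · exfalso
      rw [h1] at hm
      rw [← hm] at hg2
      exact lt_irrefl _ hg2
    · obtain ⟨h3, _⟩ := cf_ne_zero k (ι s) n m hm2
      exact ⟨m, ⟨h1, s, hs, by rw [h3]; exact hm2⟩, by rw [hm]; exact hg2⟩
  obtain ⟨m₀, u, hm₀, hd₀, hu, hall⟩ := select Q hQ D hD hfin m₁ hm₁ hd₁
  have he₀ := hQ m₀ hm₀
  set p : ℤ := m₀.d with hp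
  set q : ℤ := (m₀.w.length : ℤ) with hq
  have hq0 : 0 < q := by rw [hq]; exact_mod_cast he₀
  have hmono : ∀ (d : ℤ) (x y : Ltr I), x < y → d +ᵥ x < d +ᵥ y := Ltr.vadd_lt
  let Ψ : A →ₐ[k] PowerSeries (MonoidAlgebra k (WMon (Ltr I))) := (Phi k).comp ι
  have hgen : ∀ s ∈ (S : Set A), ∀ n, Sp k (PU p q u) (PowerSeries.coeff n (Ψ s)) := by
    intro s hs n m hm
    have hm' : cf k (ι s) n m ≠ 0 := hm
    rcases hone s hs n m hm' with h1 | h1
    · rw [h1]; exact (TU_one p q u).pu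
    · obtain ⟨h3, _⟩ := cf_ne_zero k (ι s) n m hm'
      exact hall m ⟨h1, s, hs, by rw [h3]; exact hm'⟩
  have hΨ : ∀ a n, Sp k (PU p q u) (PowerSeries.coeff n (Ψ a)) :=
    fun a n => Sp_all k Ψ (TU_one p q u).pu (fun a b => PU.mul hmono) S hS hgen a n
  have hTP : ∀ a b, PU p q u a → PU p q u b → (TU p q u (a * b) ↔ TU p q u a ∧ TU p q u b) :=
    fun a b => TU_mul_iff hmono
  let F := extr k Ψ hTP (TU_one p q u) hΨ
  have hF : ∀ a n, PowerSeries.coeff n (F a) = tau k (TU p q u) (PowerSeries.coeff n (Ψ a)) :=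
    fun a n => coeff_extr k Ψ hTP (TU_one p q u) hΨ a n
  -- polynomial values
  have hpoly : ∀ a, ∃ N : ℕ, ∀ n, N < n → PowerSeries.coeff n (F a) = 0 := by
    intro a
    obtain ⟨Da, hDa⟩ := ((ι a).coeff.support.image (fun g => (nu g).toAdd)).bddAbove
    refine ⟨(q * Da).toNat, ?_⟩
    intro n hn
    rw [hF, tau_apply]
    apply Finset.sum_eq_zero
    intro m hm
    rw [if_neg]
    rintro ⟨hT1, _⟩
    have hm' : cf k (ι a) n m ≠ 0 := Finsupp.mem_support_iff.mp hm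
    obtain ⟨h1, g, hg, hg2⟩ := cf_ne_zero k (ι a) n m hm'
    have h2 : m.d ≤ Da := by
      apply hDa
      rw [Finset.mem_coe]
      exact Finset.mem_image.mpr ⟨g, Finsupp.mem_support_iff.mpr hg, hg2.symm⟩
    rw [h1] at hT1
    have h3 : (n : ℤ) ≤ p * n := by nlinarith
    have h4 : q * m.d ≤ q * Da := mul_le_mul_of_nonneg_left h2 hq0.le
    omega
  -- nontriviality
  obtain ⟨s₀, hs₀, hcf₀⟩ := hm₀.2
  apply exists_laurent k F hpoly s₀ m₀.w.length he₀
  rw [hF, tau_apply, Finset.sum_eq_single m₀]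
  · rw [if_pos]
    · exact hcf₀
    · exact ⟨by rw [hp, hq]; ring, hu⟩
  · intro m hm hne
    rw [if_neg]
    rintro ⟨hT1, hT2⟩
    apply hne
    have hm' : cf k (ι s₀) m₀.w.length m ≠ 0 := Finsupp.mem_support_iff.mp hm
    obtain ⟨h1, _⟩ := cf_ne_zero k (ι s₀) _ m hm'
    apply WMon.eq_of_act_eq m m₀ u hT2 hu h1
    rw [h1, ← hq, mul_comm p q] at hT1
    exact mul_left_cancel₀ hq0.ne' hT1
  · intro hm
    exact absurd (Finsupp.mem_support_iff.mpr hcf₀) hm

end Pool.Agent.H129R3
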