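import Mathlib
import Pool.Agent.H129R3.Main

set_option autoImplicit false

namespace Pool.Agent.H129R3

open MonoidAlgebra

variable (k : Type) [Field k]

/-- the involution inverting the distinguished generator -/
def th (I : Type) : FreeGroup (Option I) →* FreeGroup (Option I) :=
  FreeGroup.lift (fun o => match o with
    | none => (FreeGroup.of none)⁻¹
    | some i => FreeGroup.of (some i))

lemma th_th {I : Type} (g : FreeGroup (Option I)) : th I (th I g) = g := by
  have : (th I).comp (th I) = MonoidHom.id _ := by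
    apply FreeGroup.ext_hom
    intro o
    cases o with
    | none => simp [th]
    | some i => simp [th]
  exact DFunLike.congr_fun this g

lemma nu_th {I : Type} (g : FreeGroup (Option I)) : nu (th I g) = (nu g)⁻¹ := by
  have : (nu (I := I)).comp (th I) = (nu (I := I))⁻¹ := by
    apply FreeGroup.ext_hom
    intro o
    cases o with
    | none => simp [th, nu]
    | some i => simp [th, nu]
  exact DFunLike.congr_fun this g

lemma main_ne {I : Type} [LinearOrder I] {A : Type} [Ring A] [Algebra k A]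
    (ι : A →ₐ[k] MonoidAlgebra k (FreeGroup (Option I))) (S : Finset A)
    (hS : Algebra.adjoin k (S : Set A) = ⊤)
    (hne : ∃ s ∈ S, ∃ g, (ι s).coeff g ≠ 0 ∧ nu g ≠ 1) :
    ∃ f : A →ₐ[k] LaurentPolynomial k, f.range ≠ ⊥ := by
  obtain ⟨s, hs, g, hg, hg2⟩ := hne
  have h3 : (nu g).toAdd ≠ 0 := by
    intro h; exact hg2 (toAdd_eq_zero.mp h)
  rcases lt_or_gt_of_ne h3 with h4 | h4
  · -- negative degree: apply the involution
    let ι2 : A →ₐ[k] MonoidAlgebra k (FreeGroup (Option I)) := (mapDomainAlgHom k k (th I)).comp ι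
    apply main_pos k ι2 S hS
    refine ⟨s, hs, th I g, ?_, ?_⟩
    · have hinj : Function.Injective (th I) := by
        intro a b hab
        rw [← th_th a, ← th_th b, hab]
      have : (ι2 s).coeff (th I g) = (ι s).coeff g := by
        show (Finsupp.mapDomain (th I) (ι s).coeff) (th I g) = _
        exact Finsupp.mapDomain_apply hinj _ _
      rw [this]; exact hg
    · rw [nu_th, toAdd_inv]; omega
  · exact main_pos k ι S hS ⟨s, hs, g, hg, h4⟩

lemma main_free {Y : Type} {A : Type} [Ring A] [Algebra k A]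
    (ι : A →ₐ[k] MonoidAlgebra k (FreeGroup Y)) (S : Finset A)
    (hS : Algebra.adjoin k (S : Set A) = ⊤)
    (hcl : Subgroup.closure {g | ∃ s ∈ S, (ι s).coeff g ≠ 0} = ⊤) (y₀ : Y) :
    ∃ f : A →ₐ[k] LaurentPolynomial k, f.range ≠ ⊥ := by
  classical
  let _ : LinearOrder {y : Y // y ≠ y₀} := IsWellOrder.linearOrder WellOrderingRel
  let e : FreeGroup Y ≃* FreeGroup (Option {y : Y // y ≠ y₀}) :=
    FreeGroup.freeGroupCongr (Equiv.optionSubtypeNe y₀).symm
  let ι1 : A →ₐ[k] MonoidAlgebra k (FreeGroup (Option {y : Y // y ≠ y₀})) :=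
    (domCongr k k e).toAlgHom.comp ι
  apply main_ne k ι1 S hS
  by_contra hcon
  push Not at hcon
  have h1 : ∀ g ∈ {g | ∃ s ∈ S, (ι s).coeff g ≠ 0}, nu (e g) = 1 := by
    rintro g ⟨s, hs, hg⟩
    apply hcon s hs
    have : (ι1 s).coeff (e g) = (ι s).coeff g := by
      show (domCongr k k e (ι s)).coeff (e g) = _
      rw [MonoidAlgebra.coeff_domCongr, MulEquiv.symm_apply_apply]
    rw [this]; exact hg
  have h2 : Subgroup.closure {g | ∃ s ∈ S, (ι s).coeff g ≠ 0} ≤
      (nu.comp e.toMonoidHom : FreeGroup Y →* Multiplicative ℤ).ker := by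
    rw [Subgroup.closure_le]
    intro g hg
    exact h1 g hg
  rw [hcl] at h2
  have h3 : FreeGroup.of y₀ ∈ (nu.comp e.toMonoidHom : FreeGroup Y →* Multiplicative ℤ).ker :=
    h2 (Subgroup.mem_top _)
  rw [MonoidHom.mem_ker] at h3
  have h4 : e (FreeGroup.of y₀) = FreeGroup.of none := by
    simp [e]
  have h5 : nu (e (FreeGroup.of y₀)) = 1 := h3
  rw [h4] at h5
  have h6 : nu (FreeGroup.of none : FreeGroup (Option {y : Y // y ≠ y₀})) = Multiplicative.ofAdd 1 := by
    simp [nu]
  rw [h6] at h5
  have h7 := congrArg Multiplicative.toAdd h5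
  simp at h7

/-- every finitely generated nonscalar subalgebra of a free group algebra has a nontrivial
homomorphism to Laurent polynomials -/
theorem main_sub {α : Type} (R : Subalgebra k (MonoidAlgebra k (FreeGroup α))) (hfg : R.FG)
    (hne : R ≠ ⊥) : ∃ f : R →ₐ[k] LaurentPolynomial k, f.range ≠ ⊥ := by
  classical
  obtain ⟨T, hT⟩ := (Subalgebra.fg_top R).mpr hfg
  let W : Set (FreeGroup α) := {g | ∃ s ∈ T, (s : MonoidAlgebra k (FreeGroup α)).coeff g ≠ 0}
  let H : Subgroup (FreeGroup α) := Subgroup.closure W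
  let j : MonoidAlgebra k H →ₐ[k] MonoidAlgebra k (FreeGroup α) := mapDomainAlgHom k k H.subtype
  have hj : Function.Injective j := mapDomain_injective H.subtype_injective
  have hjc : ∀ (x : MonoidAlgebra k H) (h : H), (j x).coeff (h : FreeGroup α) = x.coeff h := by
    intro x h
    show (Finsupp.mapDomain H.subtype x.coeff) (H.subtype h) = _
    exact Finsupp.mapDomain_apply H.subtype_injective _ _
  have hT2 : ∀ s ∈ T, (s : MonoidAlgebra k (FreeGroup α)) ∈ j.range := by
    intro s hs
    rw [← MonoidAlgebra.sum_coeff_single (s : MonoidAlgebra k (FreeGroup α))]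
    apply Subalgebra.sum_mem
    intro g hg
    have hgH : g ∈ H := Subgroup.subset_closure ⟨s, hs, Finsupp.mem_support_iff.mp hg⟩
    refine ⟨single (⟨g, hgH⟩ : H) ((s : MonoidAlgebra k (FreeGroup α)).coeff g), ?_⟩
    show mapDomain H.subtype (single (⟨g, hgH⟩ : H) ((s : MonoidAlgebra k (FreeGroup α)).coeff g)) = _
    rw [MonoidAlgebra.mapDomain_single]
    rfl
  have hR : R ≤ j.range := by
    have h1 : (⊤ : Subalgebra k R) ≤ j.range.comap R.val := by
      rw [← hT, Algebra.adjoin_le_iff]
      intro s hs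
      exact hT2 s hs
    intro x hx
    exact h1 (x := ⟨x, hx⟩) Algebra.mem_top
  let e := AlgEquiv.ofInjective j hj
  let ι0 : R →ₐ[k] MonoidAlgebra k H := e.symm.toAlgHom.comp (Subalgebra.inclusion hR)
  have hι0 : ∀ x : R, j (ι0 x) = x := by
    intro x
    have h1 : e (ι0 x) = Subalgebra.inclusion hR x := by
      show e (e.symm (Subalgebra.inclusion hR x)) = _
      rw [AlgEquiv.apply_symm_apply]
    exact congrArg Subtype.val h1
  let E := IsFreeGroup.toFreeGroup H
  let ι : R →ₐ[k] MonoidAlgebra k (FreeGroup (IsFreeGroup.Generators H)) :=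
    (domCongr k k E).toAlgHom.comp ι0
  rcases isEmpty_or_nonempty (IsFreeGroup.Generators H) with hY | ⟨⟨y₀⟩⟩
  · exfalso
    apply hne
    have hsub : ∀ h : H, h = 1 := by
      intro h
      apply E.injective
      exact Subsingleton.elim _ _
    rw [eq_bot_iff]
    intro x hx
    have h1 : ι0 ⟨x, hx⟩ = algebraMap k _ ((ι0 ⟨x, hx⟩).coeff 1) := by
      ext h
      rw [hsub h]
      simp
    have h2 := hι0 ⟨x, hx⟩
    rw [h1, AlgHom.commutes] at h2
    rw [Algebra.mem_bot]
    exact ⟨_, h2⟩
  · apply main_free k ι T hT _ y₀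
    have h1 : Subgroup.closure (((↑) : H → FreeGroup α) ⁻¹' W) = ⊤ :=
      Subgroup.closure_closure_coe_preimage
    have h2 : {g | ∃ s ∈ T, (ι s).coeff g ≠ 0} = E '' (((↑) : H → FreeGroup α) ⁻¹' W) := by
      ext g
      constructor
      · rintro ⟨s, hs, hg⟩
        refine ⟨E.symm g, ?_, MulEquiv.apply_symm_apply E g⟩
        refine ⟨s, hs, ?_⟩
        have h3 : (ι s).coeff g = (ι0 s).coeff (E.symm g) := by
          show (domCongr k k E (ι0 s)).coeff g = _
          rw [MonoidAlgebra.coeff_domCongr]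
        rw [h3] at hg
        rw [← hι0 s, hjc]
        exact hg
      · rintro ⟨h, ⟨s, hs, hh⟩, rfl⟩
        refine ⟨s, hs, ?_⟩
        have h3 : (ι s).coeff (E h) = (ι0 s).coeff h := by
          show (domCongr k k E (ι0 s)).coeff (E h) = _
          rw [MonoidAlgebra.coeff_domCongr, MulEquiv.symm_apply_apply]
        rw [h3, ← hjc, hι0 s]
        exact hh
    rw [h2]
    have h4 : Subgroup.map E.toMonoidHom (Subgroup.closure (((↑) : H → FreeGroup α) ⁻¹' W)) =
        Subgroup.closure (E.toMonoidHom '' (((↑) : H → FreeGroup α) ⁻¹' W)) :=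
      MonoidHom.map_closure _ _
    rw [h1] at h4
    have h5 : Subgroup.map E.toMonoidHom (⊤ : Subgroup H) = ⊤ :=
      Subgroup.map_top_of_surjective _ E.surjective
    rw [h5] at h4
    exact h4.symm

end Pool.Agent.H129R3
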